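import Pool.Agent.N973.P17G.EIS
import Pool.Agent.N975.S17.Fin
import Pool.Agent.N809.M17.Mod17

/-!
# P17G: the integral odd symbol of level `17`
-/

set_option autoImplicit false

namespace Pool.Agent.N973.P17G

open Pool.Agent.N974.Gen

/-- **SY** -/
theorem t_SY : S_SY := by
  obtain ⟨s, κ, -, -, g, h3⟩ := Pool.Agent.N975.S17.exists_symb Pool.Agent.N809.M17.eigen17
  refine ⟨s, Pool.Agent.N975.S17.symb17_of g, h3, ?_⟩
  intro x
  have h1 := g.hecke 2 Nat.prime_two (by norm_num) x
  simp only [ap17_2, Finset.sum_range_succ, Finset.sum_range_zero] at h1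
  push_cast at h1
  rw [add_zero] at h1
  linarith

end Pool.Agent.N973.P17G
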