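import Pool.Agent.N975.S17.Cmp
import Pool.Agent.N975.CHB

/-!
# P17G: character sums of symbols and the Hecke operator at `2`
-/

set_option autoImplicit false
set_option linter.unusedSectionVars false

namespace Pool.Agent.N973.P17G

open Finset
open Pool.Agent.N969.P15 (un Ev chE)
open Pool.Agent.N975.S17 (sum_unZ Chr Chr0)

/-- a counting function `F` and a boundary term `β` which give the symbol `s` -/
structure Rel (F β : ℤ → ℤ → ℤ) (s : ℚ → ℤ) (g : ℤ) : Prop where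
  rel : ∀ a b c d : ℤ, a * d - 17 * (b * c) = 1 → 0 < d →
    2 * (2 * F b d - β b d - β c d) = g * s ((b : ℚ) / d)
  Fsc : ∀ x M : ℤ, 0 < M → F (2 * x) (2 * M) = F x M
  bsc : ∀ x M : ℤ, 0 < M → β (2 * x) (2 * M) = β x M
  bper : ∀ x y M : ℤ, M ∣ x - y → β x M = β y M
  sper : ∀ x, s (x + 1) = s x
  T2 : ∀ x, s (2 * x) + s (x / 2) + s ((x + 1) / 2) = - s x

/-- the properties of the characters which are used -/
structure Ch (M : ℕ) (χ : ℤ → ℤ) : Prop where
  mul : ∀ a b, χ (a * b) = χ a * χ b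
  per : ∀ a b, (M : ℤ) ∣ a - b → χ a = χ b
  odd : ∀ a, χ (-a) = -χ a
  one : χ 1 = 1
  pm : ∀ u : ℕ, Nat.Coprime u M → χ u = 1 ∨ χ u = -1
  v17 : χ 17 = -1

theorem Ch.of_chr {n : ℕ} {χ : ℤ → ℤ} (X : Chr n χ) : Ch n χ where
  mul := X.mul
  per := X.per
  odd := X.odd
  one := X.one
  pm := X.pm
  v17 := X.v17

theorem Ch.two {n : ℕ} {χ : ℤ → ℤ} (X : Ch n χ) : Ch (2 * n) χ where
  mul := X.mul
  per a b h := X.per a b (by push_cast at h; exact (Dvd.intro_left 2 rfl).trans h)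
  odd := X.odd
  one := X.one
  pm u h := X.pm u (Nat.Coprime.coprime_mul_left_right h)
  v17 := X.v17

section sums

variable {F β : ℤ → ℤ → ℤ} {s : ℚ → ℤ} {g : ℤ} (R : Rel F β s g)
include R

/-- the character sum at the modulus `M` -/
theorem sumL {M : ℕ} (hM : 0 < M) (h17 : ¬ 17 ∣ M) {χ : ℤ → ℤ} (X : Ch M χ) :
    2 * (2 * ∑ u ∈ un M, χ u * F u M - 2 * ∑ u ∈ un M, χ u * β u M) =
      g * ∑ u ∈ un M, χ u * s ((u : ℚ) / M) := by
  have : NeZero M := ⟨hM.ne'⟩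
  have hnz : (0 : ℤ) < M := by exact_mod_cast hM
  have hc : Nat.Coprime 17 M := (Nat.Prime.coprime_iff_not_dvd (by norm_num)).2 h17
  set w : (ZMod M)ˣ := -ZMod.unitOfCoprime 17 hc with hw
  have hwv : (w : ZMod M) = -17 := by
    rw [hw, Units.val_neg, ZMod.coe_unitOfCoprime]; push_cast; rfl
  -- the values of the symbol
  have hval : ∀ u : (ZMod M)ˣ, 2 * (2 * F (((u : ZMod M).val : ℕ) : ℤ) M -
      β (((u : ZMod M).val : ℕ) : ℤ) M -
      β (((((w * u)⁻¹ : (ZMod M)ˣ) : ZMod M).val : ℕ) : ℤ) M) =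
      g * s ((((u : ZMod M).val : ℕ) : ℚ) / M) := by
    intro u
    set j : ℕ := (((w * u)⁻¹ : (ZMod M)ˣ) : ZMod M).val with hj
    have hdv : (M : ℤ) ∣ 1 + 17 * ((((u : ZMod M).val : ℕ) : ℤ) * (j : ℤ)) := by
      rw [← ZMod.intCast_zmod_eq_zero_iff_dvd]
      push_cast
      rw [hj, ZMod.natCast_zmod_val, ZMod.natCast_zmod_val]
      have h7 : ((w * u : (ZMod M)ˣ) : ZMod M) * (((w * u)⁻¹ : (ZMod M)ˣ) : ZMod M) = 1 :=
        Units.mul_inv _
      rw [Units.val_mul, hwv] at h7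
      linear_combination -h7
    obtain ⟨a, ha⟩ := hdv
    have h1 := R.rel a (((u : ZMod M).val : ℕ) : ℤ) (j : ℤ) (M : ℤ)
      (by linear_combination -ha) hnz
    rw [h1]
    push_cast
    rfl
  rw [sum_unZ, sum_unZ, sum_unZ]
  have e2 : ∑ u : (ZMod M)ˣ, χ (((u : ZMod M).val : ℕ) : ℤ) *
        β (((((w * u)⁻¹ : (ZMod M)ˣ) : ZMod M).val : ℕ) : ℤ) M =
      ∑ v : (ZMod M)ˣ, χ (((v : ZMod M).val : ℕ) : ℤ) * β (((v : ZMod M).val : ℕ) : ℤ) M := by
    refine Finset.sum_bij' (fun u _ => (w * u)⁻¹) (fun v _ => w⁻¹ * v⁻¹) (fun _ _ => mem_univ _)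
      (fun _ _ => mem_univ _) ?_ ?_ ?_
    · intro u _
      simp
    · intro v _
      simp
    · intro u _
      congr 1
      -- the character at the inverse
      set v : (ZMod M)ˣ := (w * u)⁻¹ with hv
      have h1 : χ (-(17 * ((((u : ZMod M).val : ℕ) : ℤ) * (((v : ZMod M).val : ℕ) : ℤ)))) =
          χ 1 := by
        refine X.per _ _ ?_
        rw [← ZMod.intCast_zmod_eq_zero_iff_dvd]
        push_cast
        rw [ZMod.natCast_zmod_val, ZMod.natCast_zmod_val]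
        have h7 : ((w * u : (ZMod M)ˣ) : ZMod M) * (v : ZMod M) = 1 := by
          rw [hv]; exact Units.mul_inv _
        rw [Units.val_mul, hwv] at h7
        linear_combination h7
      rw [X.odd, X.mul, X.mul, X.v17, X.one] at h1
      have h2 := X.pm _ (ZMod.val_coe_unit_coprime u)
      have h3 := X.pm _ (ZMod.val_coe_unit_coprime v)
      rcases h2 with h2 | h2 <;> rcases h3 with h3 | h3 <;> rw [h2, h3] at h1 ⊢ <;> omega
  have e3 : g * ∑ u : (ZMod M)ˣ, χ (((u : ZMod M).val : ℕ) : ℤ) *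
      s ((((u : ZMod M).val : ℕ) : ℚ) / M) =
      ∑ u : (ZMod M)ˣ, χ (((u : ZMod M).val : ℕ) : ℤ) *
        (2 * (2 * F (((u : ZMod M).val : ℕ) : ℤ) M - β (((u : ZMod M).val : ℕ) : ℤ) M -
      β (((((w * u)⁻¹ : (ZMod M)ˣ) : ZMod M).val : ℕ) : ℤ) M)) := by
    rw [Finset.mul_sum]
    refine Finset.sum_congr rfl fun u _ => ?_
    rw [hval u]
    ring
  rw [e3]
  have e4 : ∀ u : (ZMod M)ˣ, χ (((u : ZMod M).val : ℕ) : ℤ) *
        (2 * (2 * F (((u : ZMod M).val : ℕ) : ℤ) M - β (((u : ZMod M).val : ℕ) : ℤ) M -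
      β (((((w * u)⁻¹ : (ZMod M)ˣ) : ZMod M).val : ℕ) : ℤ) M)) =
      4 * (χ (((u : ZMod M).val : ℕ) : ℤ) * F (((u : ZMod M).val : ℕ) : ℤ) M) -
      2 * (χ (((u : ZMod M).val : ℕ) : ℤ) * β (((u : ZMod M).val : ℕ) : ℤ) M) -
      2 * (χ (((u : ZMod M).val : ℕ) : ℤ) *
        β (((((w * u)⁻¹ : (ZMod M)ˣ) : ZMod M).val : ℕ) : ℤ) M) := by
    intro u
    ring
  rw [Finset.sum_congr rfl fun u _ => e4 u, Finset.sum_sub_distrib, Finset.sum_sub_distrib,
    ← Finset.mul_sum, ← Finset.mul_sum, ← Finset.mul_sum, e2]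
  ring

end sums

/-! ### functions of the cusps -/

/-- a function of the cusps -/
structure Pf (Φ : ℤ → ℤ → ℤ) : Prop where
  sc : ∀ x M : ℤ, 0 < M → Φ (2 * x) (2 * M) = Φ x M
  per : ∀ x M : ℤ, 0 < M → IsCoprime (17 * x) M → Φ (x + M) M = Φ x M

theorem cop17 {u M : ℕ} (hu : Nat.Coprime u M) (h17 : ¬ 17 ∣ M) :
    IsCoprime (17 * (u : ℤ)) (M : ℤ) := by
  have h1 : Nat.Coprime (17 * u) M :=
    Nat.Coprime.mul_left ((Nat.Prime.coprime_iff_not_dvd (by norm_num)).2 h17) hu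
  exact_mod_cast Nat.isCoprime_iff_coprime.2 h1

section odd

variable {Φ : ℤ → ℤ → ℤ} (H : Pf Φ) {m : ℕ} (hm : m % 2 = 1) (h17 : ¬ 17 ∣ m) {χ : ℤ → ℤ}
  (X : Ch m χ)
include H hm h17 X

theorem chi2 : χ 2 * χ 2 = 1 := by
  have h1 : Nat.Coprime 2 m := Nat.coprime_two_left.2 (Nat.odd_iff.2 hm)
  have h2 := X.pm 2 h1
  push_cast at h2
  rcases h2 with h | h <;> rw [h] <;> norm_num

theorem sum_dbl : ∑ u ∈ un m, χ u * Φ (2 * u) m = χ 2 * ∑ v ∈ un m, χ v * Φ v m := by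
  have hc2 := chi2 H hm h17 X
  rw [Finset.mul_sum]
  refine Finset.sum_bij' (fun u _ => if 2 * u < m then 2 * u else 2 * u - m)
    (fun v _ => if v % 2 = 0 then v / 2 else (v + m) / 2) ?_ ?_ ?_ ?_ ?_
  · intro u hu
    rw [un, mem_filter, mem_range] at hu ⊢
    have h1 : Nat.Coprime (2 * u) m :=
      Nat.Coprime.mul_left (Nat.coprime_two_left.2 (Nat.odd_iff.2 hm)) hu.2
    split
    · exact ⟨by omega, h1⟩
    · refine ⟨by omega, ?_⟩
      rw [Nat.coprime_sub_self_left (by omega)]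
      exact h1
  · intro v hv
    rw [un, mem_filter, mem_range] at hv ⊢
    split
    · refine ⟨by omega, ?_⟩
      exact Nat.Coprime.coprime_dvd_left ⟨2, by omega⟩ hv.2
    · refine ⟨by omega, ?_⟩
      refine Nat.Coprime.coprime_dvd_left (k := v + m) ⟨2, by omega⟩ ?_
      rw [Nat.coprime_add_self_left]
      exact hv.2
  · intro u hu
    rw [un, mem_filter, mem_range] at hu
    split_ifs <;> omega
  · intro v hv
    rw [un, mem_filter, mem_range] at hv
    split_ifs <;> omega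
  · intro u hu
    rw [un, mem_filter, mem_range] at hu
    split_ifs with h
    · push_cast
      rw [X.mul, ← mul_assoc, ← mul_assoc, hc2, one_mul]
    · have e1 : ((2 * u - m : ℕ) : ℤ) = 2 * (u : ℤ) - m := by
        rw [Nat.cast_sub (by omega)]; push_cast; ring
      rw [e1]
      have e2 : χ (2 * (u : ℤ) - m) = χ 2 * χ u := by
        rw [← X.mul]
        exact X.per _ _ ⟨-1, by ring⟩
      have hcop : IsCoprime (17 * (2 * (u : ℤ) - m)) (m : ℤ) := by
        rw [← e1]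
        refine cop17 ?_ h17
        rw [Nat.coprime_sub_self_left (by omega)]
        exact Nat.Coprime.mul_left (Nat.coprime_two_left.2 (Nat.odd_iff.2 hm)) hu.2
      have e3 := H.per (2 * (u : ℤ) - m) m (by omega) hcop
      rw [sub_add_cancel] at e3
      rw [e2, e3, ← mul_assoc, ← mul_assoc, hc2, one_mul]

theorem sum_half : ∑ u ∈ un m, χ u * Φ ((if u % 2 = 0 then u / 2 else (u + m) / 2 : ℕ) : ℤ) m =
    χ 2 * ∑ v ∈ un m, χ v * Φ v m := by
  have hc2 := chi2 H hm h17 X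
  rw [Finset.mul_sum]
  refine Finset.sum_bij' (fun v _ => if v % 2 = 0 then v / 2 else (v + m) / 2)
    (fun u _ => if 2 * u < m then 2 * u else 2 * u - m) ?_ ?_ ?_ ?_ ?_
  · intro v hv
    rw [un, mem_filter, mem_range] at hv ⊢
    split
    · refine ⟨by omega, ?_⟩
      exact Nat.Coprime.coprime_dvd_left ⟨2, by omega⟩ hv.2
    · refine ⟨by omega, ?_⟩
      refine Nat.Coprime.coprime_dvd_left (k := v + m) ⟨2, by omega⟩ ?_
      rw [Nat.coprime_add_self_left]
      exact hv.2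
  · intro u hu
    rw [un, mem_filter, mem_range] at hu ⊢
    have h1 : Nat.Coprime (2 * u) m :=
      Nat.Coprime.mul_left (Nat.coprime_two_left.2 (Nat.odd_iff.2 hm)) hu.2
    split
    · exact ⟨by omega, h1⟩
    · refine ⟨by omega, ?_⟩
      rw [Nat.coprime_sub_self_left (by omega)]
      exact h1
  · intro v hv
    rw [un, mem_filter, mem_range] at hv
    split_ifs <;> omega
  · intro u hu
    rw [un, mem_filter, mem_range] at hu
    split_ifs <;> omega
  · intro v hv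
    rw [un, mem_filter, mem_range] at hv
    set j : ℕ := if v % 2 = 0 then v / 2 else (v + m) / 2 with hj
    have e : χ (v : ℤ) = χ 2 * χ (j : ℤ) := by
      rw [← X.mul]
      refine X.per _ _ ?_
      by_cases h : v % 2 = 0
      · rw [if_pos h] at hj
        exact ⟨0, by omega⟩
      · rw [if_neg h] at hj
        exact ⟨-1, by omega⟩
    rw [e, mul_assoc]

theorem sum_w : ∑ u ∈ un m, χ u * Φ ((if u % 2 = 0 then u + m else u : ℕ) : ℤ) (2 * m) =
    ∑ w ∈ un (2 * m), χ w * Φ w (2 * m) := by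
  refine Finset.sum_bij' (fun u _ => if u % 2 = 0 then u + m else u)
    (fun w _ => if w < m then w else w - m) ?_ ?_ ?_ ?_ ?_
  · intro u hu
    rw [un, mem_filter, mem_range] at hu ⊢
    have hc : ∀ w : ℕ, w % 2 = 1 → Nat.Coprime w m → Nat.Coprime w (2 * m) := fun w h1 h2 =>
      Nat.Coprime.mul_right (Nat.coprime_two_right.2 (Nat.odd_iff.2 h1)) h2
    split
    · refine ⟨by omega, hc _ (by omega) ?_⟩
      rw [Nat.coprime_add_self_left]
      exact hu.2
    · exact ⟨by omega, hc _ (by omega) hu.2⟩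
  · intro w hw
    rw [un, mem_filter, mem_range] at hw ⊢
    have h1 : Nat.Coprime w m := Nat.Coprime.coprime_mul_left_right hw.2
    split
    · exact ⟨by omega, h1⟩
    · refine ⟨by omega, ?_⟩
      rw [Nat.coprime_sub_self_left (by omega)]
      exact h1
  · intro u hu
    rw [un, mem_filter, mem_range] at hu
    split_ifs <;> omega
  · intro w hw
    rw [un, mem_filter, mem_range] at hw
    have h1 : w % 2 = 1 := by
      have h2 : Nat.Coprime w 2 := Nat.Coprime.coprime_mul_right_right hw.2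
      exact Nat.odd_iff.1 (Nat.coprime_two_right.1 h2)
    split_ifs <;> omega
  · intro u hu
    split_ifs with h
    · congr 1
      refine X.per _ _ ⟨-1, by push_cast; ring⟩
    · rfl

/-- the three cusps of the Hecke operator, odd modulus -/
theorem sum3 : ∑ u ∈ un m, χ u * (Φ (2 * u) m + Φ u (2 * m) + Φ (u + m) (2 * m)) =
    2 * (χ 2 * ∑ v ∈ un m, χ v * Φ v m) + ∑ w ∈ un (2 * m), χ w * Φ w (2 * m) := by
  have h1 : ∀ u ∈ un m, χ u * (Φ (2 * u) m + Φ u (2 * m) + Φ (u + m) (2 * m)) =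
      χ u * Φ (2 * u) m + χ u * Φ ((if u % 2 = 0 then u / 2 else (u + m) / 2 : ℕ) : ℤ) m +
        χ u * Φ ((if u % 2 = 0 then u + m else u : ℕ) : ℤ) (2 * m) := by
    intro u hu
    rw [un, mem_filter, mem_range] at hu
    by_cases h : u % 2 = 0
    · rw [if_pos h, if_pos h]
      have e1 : ((u : ℕ) : ℤ) = 2 * ((u / 2 : ℕ) : ℤ) := by omega
      have e2 := H.sc ((u / 2 : ℕ) : ℤ) m (by omega)
      rw [← e1] at e2
      rw [← e2]
      push_cast
      ring
    · rw [if_neg h, if_neg h]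
      have e1 : ((u : ℕ) : ℤ) + m = 2 * (((u + m) / 2 : ℕ) : ℤ) := by omega
      have e2 := H.sc (((u + m) / 2 : ℕ) : ℤ) m (by omega)
      rw [← e1] at e2
      rw [← e2]
      ring
  rw [Finset.sum_congr rfl h1, Finset.sum_add_distrib, Finset.sum_add_distrib,
    sum_dbl H hm h17 X, sum_half H hm h17 X, sum_w H hm h17 X]
  ring

end odd

/-! ### even modulus -/

section even

variable {Φ : ℤ → ℤ → ℤ} (H : Pf Φ) {h : ℕ} (h0 : 0 < h) (he : h % 2 = 0) (h17 : ¬ 17 ∣ h)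
  {χ : ℤ → ℤ} (X : Ch (2 * h) χ) (Xh : ∀ j : ℤ, χ (j + h) = -χ j)
include H h0 he h17 X Xh

theorem sum_dblE : ∑ u ∈ un (2 * h), χ u * Φ (2 * u) (2 * h : ℕ) = 0 := by
  refine Finset.sum_involution (fun u _ => if u < h then u + h else u - h) ?_ ?_ ?_ ?_
  · intro u hu
    rw [un, mem_filter, mem_range] at hu
    have hu2 : Nat.Coprime u h := Nat.Coprime.coprime_mul_left_right hu.2
    have hh : (0 : ℤ) < h := by exact_mod_cast h0
    split_ifs with hlt
    · have e1 := H.sc (u : ℤ) h hh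
      have e2 := H.sc ((u + h : ℕ) : ℤ) h hh
      have e3 := H.per (u : ℤ) h hh (cop17 hu2 h17)
      push_cast at e1 e2 e3 ⊢
      rw [e1, e2, e3, Xh]
      ring
    · have e4 : ((u - h : ℕ) : ℤ) = (u : ℤ) - h := by
        rw [Nat.cast_sub (by omega)]
      have hu3 : Nat.Coprime (u - h) h := by
        rw [Nat.coprime_sub_self_left (by omega)]
        exact hu2
      have e1 := H.sc (u : ℤ) h hh
      have e2 := H.sc ((u - h : ℕ) : ℤ) h hh
      have e3 := H.per ((u - h : ℕ) : ℤ) h hh (cop17 hu3 h17)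
      have e5 := Xh ((u : ℤ) - h)
      rw [e4] at e2 e3 ⊢
      rw [sub_add_cancel] at e3 e5
      push_cast at e1 e2 e3 ⊢
      rw [e1, e2, e3, e5]
      ring
  · intro u hu _
    split_ifs <;> omega
  · intro u hu
    rw [un, mem_filter, mem_range] at hu ⊢
    have hu2 : Nat.Coprime u h := Nat.Coprime.coprime_mul_left_right hu.2
    have h1 : u % 2 = 1 := by
      have h2 : Nat.Coprime u 2 := Nat.Coprime.coprime_mul_right_right hu.2
      exact Nat.odd_iff.1 (Nat.coprime_two_right.1 h2)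
    have hc : ∀ w : ℕ, w % 2 = 1 → Nat.Coprime w h → Nat.Coprime w (2 * h) := fun w h1 h2 =>
      Nat.Coprime.mul_right (Nat.coprime_two_right.2 (Nat.odd_iff.2 h1)) h2
    split_ifs with hlt
    · refine ⟨by omega, hc _ (by omega) ?_⟩
      rw [Nat.coprime_add_self_left]
      exact hu2
    · refine ⟨by omega, hc _ (by omega) ?_⟩
      rw [Nat.coprime_sub_self_left (by omega)]
      exact hu2
  · intro u hu
    rw [un, mem_filter, mem_range] at hu
    split_ifs <;> omega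

theorem sum_wE : ∑ u ∈ un (2 * h), χ u * (Φ u (2 * (2 * h : ℕ)) +
      Φ (u + (2 * h : ℕ)) (2 * (2 * h : ℕ))) =
    ∑ w ∈ un (2 * (2 * h)), χ w * Φ w (2 * (2 * h : ℕ)) := by
  have h1 : ∑ w ∈ un (2 * (2 * h)), χ w * Φ w (2 * (2 * h : ℕ)) =
      ∑ w ∈ (un (2 * (2 * h))).filter (fun w => w < 2 * h), χ w * Φ w (2 * (2 * h : ℕ)) +
      ∑ w ∈ (un (2 * (2 * h))).filter (fun w => ¬ w < 2 * h), χ w * Φ w (2 * (2 * h : ℕ)) :=
    (Finset.sum_filter_add_sum_filter_not _ _ _).symm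
  have hc : ∀ w : ℕ, Nat.Coprime w (2 * (2 * h)) ↔ Nat.Coprime w (2 * h) := by
    intro w
    constructor
    · exact fun h => Nat.Coprime.coprime_mul_left_right h
    · intro h
      exact Nat.Coprime.mul_right (Nat.Coprime.coprime_mul_right_right h) h
  have h2 : (un (2 * (2 * h))).filter (fun w => w < 2 * h) = un (2 * h) := by
    ext w
    rw [un, un, mem_filter, mem_filter, mem_filter, mem_range, mem_range, hc]
    constructor
    · rintro ⟨⟨_, h3⟩, h4⟩
      exact ⟨h4, h3⟩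
    · rintro ⟨h3, h4⟩
      exact ⟨⟨by omega, h4⟩, h3⟩
  have h3 : ∑ w ∈ (un (2 * (2 * h))).filter (fun w => ¬ w < 2 * h),
      χ w * Φ w (2 * (2 * h : ℕ)) =
      ∑ u ∈ un (2 * h), χ u * Φ (u + (2 * h : ℕ)) (2 * (2 * h : ℕ)) := by
    symm
    refine Finset.sum_bij' (fun u _ => u + 2 * h) (fun w _ => w - 2 * h) ?_ ?_ ?_ ?_ ?_
    · intro u hu
      rw [un, mem_filter, mem_range] at hu
      rw [un, mem_filter, mem_filter, mem_range, hc]
      refine ⟨⟨by omega, ?_⟩, by omega⟩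
      rw [Nat.coprime_add_self_left]
      exact hu.2
    · intro w hw
      rw [un, mem_filter, mem_filter, mem_range, hc] at hw
      rw [un, mem_filter, mem_range]
      refine ⟨by omega, ?_⟩
      rw [Nat.coprime_sub_self_left (by omega)]
      exact hw.1.2
    · intro u _
      omega
    · intro w hw
      rw [un, mem_filter, mem_filter, mem_range, hc] at hw
      omega
    · intro u _
      have : χ ((u + 2 * h : ℕ) : ℤ) = χ u := X.per _ _ ⟨1, by push_cast; ring⟩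
      rw [this]
      push_cast
      rfl
  rw [h1, h2, h3, ← Finset.sum_add_distrib]
  refine Finset.sum_congr rfl fun u _ => ?_
  ring

/-- the three cusps of the Hecke operator, even modulus -/
theorem sum3E : ∑ u ∈ un (2 * h), χ u * (Φ (2 * u) (2 * h : ℕ) + Φ u (2 * (2 * h : ℕ)) +
      Φ (u + (2 * h : ℕ)) (2 * (2 * h : ℕ))) =
    ∑ w ∈ un (2 * (2 * h)), χ w * Φ w (2 * (2 * h : ℕ)) := by
  have h1 : ∀ u ∈ un (2 * h), χ u * (Φ (2 * u) (2 * h : ℕ) + Φ u (2 * (2 * h : ℕ)) +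
      Φ (u + (2 * h : ℕ)) (2 * (2 * h : ℕ))) = χ u * Φ (2 * u) (2 * h : ℕ) +
      χ u * (Φ u (2 * (2 * h : ℕ)) + Φ (u + (2 * h : ℕ)) (2 * (2 * h : ℕ))) := by
    intro u _
    ring
  rw [Finset.sum_congr rfl h1, Finset.sum_add_distrib, sum_dblE H h0 he h17 X Xh,
    sum_wE H h0 he h17 X Xh, zero_add]

end even

/-! ### the relation for the three cusps -/

section fin

variable {F β : ℤ → ℤ → ℤ} {s : ℚ → ℤ} {g : ℤ} (R : Rel F β s g)
include R

theorem pfF : Pf F where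
  sc := R.Fsc
  per := by
    intro x M hM hc
    obtain ⟨c, a, h⟩ := hc
    have h1 := R.rel a x (-c) M (by linear_combination h) hM
    have h2 := R.rel (a - 17 * c) (x + M) (-c) M (by linear_combination h) hM
    have h3 := R.bper (x + M) x M ⟨1, by ring⟩
    have hMq : (M : ℚ) ≠ 0 := by exact_mod_cast hM.ne'
    have h4 : (((x + M : ℤ)) : ℚ) / M = (x : ℚ) / M + 1 := by
      push_cast
      field_simp
    rw [h3, h4, R.sper] at h2
    omega

theorem pfb : Pf β where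
  sc := R.bsc
  per x M _ _ := R.bper _ _ _ ⟨1, by ring⟩

theorem pfs : Pf (fun x M => s ((x : ℚ) / M)) where
  sc x M hM := by
    congr 1
    have hMq : (M : ℚ) ≠ 0 := by exact_mod_cast hM.ne'
    push_cast
    field_simp
  per x M hM _ := by
    have hMq : (M : ℚ) ≠ 0 := by exact_mod_cast hM.ne'
    have h4 : (((x + M : ℤ)) : ℚ) / M = (x : ℚ) / M + 1 := by
      push_cast
      field_simp
    rw [h4, R.sper]

/-- the Hecke relation -/
theorem heckes {M : ℕ} (hM : 0 < M) (χ : ℤ → ℤ) :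
    ∑ u ∈ un M, χ u * (s (((2 * (u : ℤ) : ℤ) : ℚ) / ((M : ℤ) : ℚ)) +
      s ((((u : ℤ)) : ℚ) / ((2 * (M : ℤ) : ℤ) : ℚ)) +
      s ((((u : ℤ) + (M : ℤ) : ℤ) : ℚ) / ((2 * (M : ℤ) : ℤ) : ℚ))) =
    - ∑ u ∈ un M, χ u * s ((u : ℚ) / M) := by
  rw [← Finset.sum_neg_distrib]
  refine Finset.sum_congr rfl fun u _ => ?_
  have h1 := R.T2 ((u : ℚ) / M)
  have hMq : (M : ℚ) ≠ 0 := by exact_mod_cast hM.ne'
  have e1 : (((2 * (u : ℤ) : ℤ) : ℚ) / ((M : ℤ) : ℚ)) = 2 * ((u : ℚ) / M) := by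
    push_cast
    ring
  have e2 : ((((u : ℤ)) : ℚ) / ((2 * (M : ℤ) : ℤ) : ℚ)) = ((u : ℚ) / M) / 2 := by
    push_cast
    field_simp
  have e3 : ((((u : ℤ) + (M : ℤ) : ℤ) : ℚ) / ((2 * (M : ℤ) : ℤ) : ℚ)) =
      ((u : ℚ) / M + 1) / 2 := by
    push_cast
    field_simp
  rw [e1, e2, e3, h1]
  ring

/-- **the three cusps**, odd modulus -/
theorem three_odd {m : ℕ} (hm : m % 2 = 1) (h17 : ¬ 17 ∣ m) {χ : ℤ → ℤ} (X : Ch m χ) :
    2 * (2 * ∑ u ∈ un m, χ u * (F (2 * u) m + F u (2 * m) + F (u + m) (2 * m)) -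
      2 * ∑ u ∈ un m, χ u * (β (2 * u) m + β u (2 * m) + β (u + m) (2 * m))) =
    - (g * ∑ u ∈ un m, χ u * s ((u : ℚ) / m)) := by
  have h17' : ¬ 17 ∣ 2 * m := by
    intro h
    rcases (Nat.Prime.dvd_mul (by norm_num)).1 h with h | h
    · omega
    · exact h17 h
  have k1 := sumL R (M := m) (by omega) h17 X
  have k2 := sumL R (M := 2 * m) (by omega) h17' X.two
  have k3 := heckes R (M := m) (by omega) χ
  have k4 := sum3 (pfs R) hm h17 X
  rw [k3] at k4
  rw [sum3 (pfF R) hm h17 X, sum3 (pfb R) hm h17 X]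
  have e1 : ((2 * m : ℕ) : ℤ) = 2 * (m : ℤ) := by push_cast; ring
  have e2 : ((2 * m : ℕ) : ℚ) = ((2 * (m : ℤ) : ℤ) : ℚ) := by push_cast; ring
  rw [e1, e2] at k2
  have e3 : ∀ v : ℕ, (((v : ℤ) : ℚ)) = (v : ℚ) := fun v => Int.cast_natCast v
  simp only [e3] at k4
  linear_combination (2 * χ 2) * k1 + k2 - g * k4

/-- **the three cusps**, even modulus -/
theorem three_even {h : ℕ} (h0 : 0 < h) (he : h % 2 = 0) (h17 : ¬ 17 ∣ h)
    {χ : ℤ → ℤ} (X : Ch (2 * h) χ) (Xh : ∀ j : ℤ, χ (j + h) = -χ j) :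
    2 * (2 * ∑ u ∈ un (2 * h), χ u * (F (2 * u) (2 * h : ℕ) + F u (2 * (2 * h : ℕ)) +
        F (u + (2 * h : ℕ)) (2 * (2 * h : ℕ))) -
      2 * ∑ u ∈ un (2 * h), χ u * (β (2 * u) (2 * h : ℕ) + β u (2 * (2 * h : ℕ)) +
        β (u + (2 * h : ℕ)) (2 * (2 * h : ℕ)))) =
    - (g * ∑ u ∈ un (2 * h), χ u * s ((u : ℚ) / (2 * h : ℕ))) := by
  have h17' : ¬ 17 ∣ 2 * (2 * h) := by
    intro h'
    rcases (Nat.Prime.dvd_mul (by norm_num)).1 h' with h' | h'
    · omega
    · rcases (Nat.Prime.dvd_mul (by norm_num)).1 h' with h' | h'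
      · omega
      · exact h17 h'
  have k2 := sumL R (M := 2 * (2 * h)) (by omega) h17' X.two
  have k3 := heckes R (M := 2 * h) (by omega) χ
  have k4 := sum3E (pfs R) h0 he h17 X Xh
  rw [k3] at k4
  rw [sum3E (pfF R) h0 he h17 X Xh, sum3E (pfb R) h0 he h17 X Xh]
  have e1 : ((2 * (2 * h) : ℕ) : ℤ) = 2 * ((2 * h : ℕ) : ℤ) := by push_cast; ring
  have e2 : ((2 * (2 * h) : ℕ) : ℚ) = ((2 * ((2 * h : ℕ) : ℤ) : ℤ) : ℚ) := by push_cast; ring
  rw [e1, e2] at k2
  have e3 : ∀ v : ℕ, (((v : ℤ) : ℚ)) = (v : ℚ) := fun v => Int.cast_natCast v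
  simp only [e3] at k4
  linear_combination k2 - g * k4

end fin

end Pool.Agent.N973.P17G
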