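import Pool.Agent.N973.P17G.BIL
import Pool.Agent.N973.P17G.T2
import Pool.Agent.N975.PG.Frz

/-!
# P17G: the Eisenstein part and the proportionality, odd discriminants
-/

set_option autoImplicit false

namespace Pool.Agent.N973.P17G

open Finset
open Pool.Agent.Z700 (hh fac)
open Pool.Agent.N969.P15 (V3 ep2 tb tw psp un)
open Pool.Agent.N972.P17
open Pool.Agent.N969.P17G
open Pool.Agent.N973.P17
open Pool.Agent.N975.S17 (Symb17 GG GG_pos symb_eq chrO)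

/-- the integral odd symbol of level `17` -/
def S_SY : Prop := ∃ s : ℚ → ℤ, Symb17 s ∧ s (1 / 3) = 2 ∧
  ∀ x, s (2 * x) + s (x / 2) + s ((x + 1) / 2) = - s x

theorem symb_val {s : ℚ → ℤ} (H : Symb17 s) (h3 : s (1 / 3) = 2) {a b c d : ℤ}
    (h : a * d - 17 * (b * c) = 1) (hd : 0 < d) : s ((b : ℚ) / d) = Gs b c d := by
  have h1 := symb_eq H h
  rw [h3, GG_pos hd] at h1
  have h2 : 2 * s ((b : ℚ) / d) = 2 * Gs b c d := by exact_mod_cast h1
  omega

theorem Fg_sc (A : ℕ) (x M : ℤ) : Fg A (2 * x) (2 * M) = Fg A x M := by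
  classical
  unfold Fg
  refine finsum_congr fun q => ?_
  have e : q.1 * (2 * x) ^ 2 + q.2.1 * (2 * x) * (2 * M) + q.2.2 * (2 * M) ^ 2 =
      4 * (q.1 * x ^ 2 + q.2.1 * x * M + q.2.2 * M ^ 2) := by ring
  have e2 : q.1 * (2 * x) ^ 2 + q.2.1 * (2 * x) * (2 * M) + q.2.2 * (2 * M) ^ 2 < 0 ↔
      q.1 * x ^ 2 + q.2.1 * x * M + q.2.2 * M ^ 2 < 0 := by
    rw [e]
    constructor <;> intro h <;> linarith
  simp only [e2]

theorem sign_two (z : ℤ) : Int.sign (2 * z) = Int.sign z := by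
  rw [Int.sign_mul, show Int.sign 2 = 1 from rfl, one_mul]

theorem bd_sc (A : ℕ) {x M : ℤ} : bd A (2 * x) (2 * M) = bd A x M := by
  unfold bd
  refine Finset.sum_congr rfl fun C _ => ?_
  have e : (A : ℤ) * ((2 * x) % (2 * M)) - (C : ℤ) * (2 * M) = 2 * (A * (x % M) - C * M) := by
    rw [Int.mul_emod_mul_of_pos _ _ (by norm_num : (0 : ℤ) < 2)]
    ring
  rw [e, sign_two]

theorem bd_per (A : ℕ) {x y M : ℤ} (h : M ∣ x - y) : bd A x M = bd A y M := by
  unfold bd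
  rw [Int.emod_eq_emod_iff_emod_sub_eq_zero.2 (Int.emod_eq_zero_of_dvd h)]

/-- the relation for odd `A` -/
theorem rel_odd {s : ℚ → ℤ} (H : Symb17 s) (h3 : s (1 / 3) = 2)
    (hT : ∀ x, s (2 * x) + s (x / 2) + s ((x + 1) / 2) = - s x) {A : ℕ} (hA : Cp A)
    (h1 : 1 < A) : Rel (Fg A) (bd A) s (Gg A 1 1 3) where
  rel := by
    intro a b c d h hd
    have k1 := Pool.Agent.N975.PG.Gg_prop hA h1 h hd
    rw [symb_val H h3 h hd, ← k1]
    unfold Gg
    ring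
  Fsc x M _ := Fg_sc A x M
  bsc x M _ := bd_sc A
  bper x y M h := bd_per A h
  sper := H.per
  T2 := hT

/-! ### the divisor sums -/

theorem WTg1 (h2 : S_C2AG) {A m : ℕ} (h : Pr A m) : WTg A m (A * m) = - AAg 1 A (A * m) := by
  unfold WTg AAg
  rw [one_mul, ← Finset.sum_neg_distrib]
  refine Finset.sum_congr rfl fun T hT => ?_
  rw [mem_filter, mem_range] at hT
  rcases Nat.eq_zero_or_pos T with rfl | h0
  · simp [Wg, loc]
  · exact h2 A m h T h0 hT.1 hT.2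

theorem ep2_mul {A m : ℕ} (hA : A % 4 = 1) (hm : m % 4 = 3) :
    jacobiSym 2 A * ep2 (A * m) = ep2 m := by
  have hodd : Odd A := Nat.odd_iff.2 (by omega)
  rw [jacobiSym.at_two hodd, ZMod.χ₈_nat_eq_if_mod_eight]
  unfold ep2
  have h1 : A % 8 = 1 ∨ A % 8 = 5 := by omega
  have h2 : m % 8 = 3 ∨ m % 8 = 7 := by omega
  rcases h1 with h1 | h1 <;> rcases h2 with h2 | h2 <;> rw [Nat.mul_mod, h1, h2] <;>
    norm_num <;> omega

theorem WTg2 (h2 : S_C2BG) {A m : ℕ} (h : Pr A m) :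
    WTg A m (2 * (A * m)) = - (AAg 2 A (A * m) + ep2 m * AAg 1 A (A * m)) := by
  have he := ep2_mul h.1.2.1 h.2.1.2.1
  have e1 : WTg A m (2 * (A * m)) = ∑ T ∈ (range (2 * (A * m))).filter (fun T => 17 ∣ T),
      (- (sgn 2 A (A * m) T * loc (A * m) (4 * (2 * (A * m) - T) * T)) +
        - (if 2 ∣ T then ep2 m * (sgn 1 A (A * m) ((T / 2 : ℕ) : ℤ) *
          loc (A * m) ((2 * (A * m) - T) * T)) else 0)) := by
    unfold WTg
    refine Finset.sum_congr rfl fun T hT => ?_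
    rw [mem_filter, mem_range] at hT
    rcases Nat.eq_zero_or_pos T with rfl | h0
    · simp [Wg, loc]
    · rw [h2 A m h T h0 hT.1 hT.2, he]
      ring
  have e2 : ∑ T ∈ (range (2 * (A * m))).filter (fun T => 17 ∣ T),
      (if 2 ∣ T then ep2 m * (sgn 1 A (A * m) ((T / 2 : ℕ) : ℤ) *
          loc (A * m) ((2 * (A * m) - T) * T)) else 0) = ep2 m * AAg 1 A (A * m) := by
    rw [← Finset.sum_filter]
    unfold AAg
    rw [Finset.mul_sum, one_mul]
    symm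
    refine Finset.sum_nbij (fun T : ℕ => 2 * T) ?_ ?_ ?_ ?_
    · intro T hT
      rw [mem_filter, mem_range] at hT
      rw [mem_filter, mem_filter, mem_range]
      omega
    · intro T _ T' _ h
      have h' : 2 * T = 2 * T' := h
      omega
    · intro T hT
      rw [mem_coe, mem_filter, mem_filter, mem_range] at hT
      obtain ⟨⟨b1, b2⟩, k, hk⟩ := hT
      refine ⟨k, ?_, hk.symm⟩
      rw [mem_coe, mem_filter, mem_range]
      omega
    · intro T hT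
      rw [mem_filter, mem_range] at hT
      have h6 : 4 * (A * m - T) * T = (2 * (A * m) - 2 * T) * (2 * T) := by
        have h7 : 2 * (A * m) - 2 * T = 2 * (A * m - T) := by omega
        rw [h7]
        ring
      rw [h6, Nat.mul_div_cancel_left _ (by norm_num : 0 < 2)]
  rw [e1, Finset.sum_add_distrib, Finset.sum_neg_distrib, Finset.sum_neg_distrib, e2]
  unfold AAg
  ring

/-! ### the two relations -/

theorem h17m {m : ℕ} (hm : Cm m) : ¬ 17 ∣ m := n17 hm.2.2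

/-- the relations between the pair sums and the symbol -/
theorem two_rel (hPC : S_PC) (hHE : S_HEG) (h1a : S_C1AG) (h1b : S_C1BG) (h2a : S_C2AG)
    (h2b : S_C2BG) (hC : S_CNFG) {s : ℚ → ℤ} (H : Symb17 s) (h3 : s (1 / 3) = 2)
    (hT : ∀ x, s (2 * x) + s (x / 2) + s ((x + 1) / 2) = - s x) {A m : ℕ} (h : Pr A m)
    (h1 : 1 < A) :
    3 * (Gg A 1 1 3 * ∑ u ∈ un m, jacobiSym u m * s ((u : ℚ) / m)) =
      - (2 * (3 * P11 1 A (A * m) + P22 1 A (A * m))) ∧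
    3 * (Gg A 1 1 3 * ∑ u ∈ un m, jacobiSym u m * s ((u : ℚ) / m)) =
      12 * (P11 1 A (A * m) + P12 A (A * m)) := by
  have R := rel_odd H h3 hT h.1 h1
  have X : Ch m (fun u => jacobiSym u m) := Ch.of_chr (chrO h.2.1.2.1 h.2.1.2.2)
  have hm0 : 0 < m := by have := h.2.1.2.1; omega
  have k1 := sumL R hm0 (h17m h.2.1) X
  have k2 := three_odd R (by have := h.2.1.2.1; omega) (h17m h.2.1) X
  obtain ⟨c1, -, c3⟩ := hC A m h h1
  have b1 := t_BIL1G hPC A m h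
  have b2 := t_BIL2G hPC A m h
  obtain ⟨e1, e2⟩ := hHE A m h
  have a1 := h1a A m h h1
  have a2 := h1b A m h h1
  rw [WTg1 h2a h] at a1
  rw [WTg2 h2b h] at a2
  rw [a1] at k1
  rw [a2] at k2
  rw [e1, e2] at b2
  generalize ∑ u ∈ un m, jacobiSym u m * s ((u : ℚ) / m) = σ at k1 k2 ⊢
  generalize ∑ u ∈ un m, jacobiSym u m * bd A u m = y1 at k1 c1
  generalize ∑ u ∈ un m, jacobiSym u m * (bd A (2 * u) m + bd A u (2 * m) +
    bd A (u + m) (2 * m)) = y3 at k2 c3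
  constructor
  · linear_combination -3 * k1 - 4 * c1 + 2 * b1
  · linear_combination 3 * k2 + 4 * c3 - 2 * b2 - 2 * ep2 m * b1

/-- **EISG** -/
theorem t_EISG (hPC : S_PC) (hHE : S_HEG) (h1a : S_C1AG) (h1b : S_C1BG) (h2a : S_C2AG)
    (h2b : S_C2BG) (hC : S_CNFG) (hS : S_SY) : S_EISG := by
  intro A m h h1
  obtain ⟨s, H, h3, hT⟩ := hS
  obtain ⟨k1, k2⟩ := two_rel hPC hHE h1a h1b h2a h2b hC H h3 hT h h1
  linarith

/-- the proportionality with the constant -/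
theorem kapg (hPC : S_PC) (hHE : S_HEG) (h1a : S_C1AG) (h1b : S_C1BG) (h2a : S_C2AG)
    (h2b : S_C2BG) (hC : S_CNFG) (hS : S_SY) (hO : S_ORTG) (hD : S_DIAG) {A m : ℕ}
    (h : Pr A m) (h1 : 1 < A) :
    8 * P11 1 A (A * m) = - (Gg A 1 1 3 * cc m ^ 2) := by
  have h0 := t_EISG hPC hHE h1a h1b h2a h2b hC hS A m h h1
  obtain ⟨s, H, h3, hT⟩ := hS
  obtain ⟨k1, k2⟩ := two_rel hPC hHE h1a h1b h2a h2b hC H h3 hT h h1
  obtain ⟨x, z, ho, -⟩ := hO (A * m) A (cm_mul h) (dvd_mul_right A m)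
  obtain ⟨o1, o2, o3⟩ := ho A dvd_rfl
  have h4 := Pool.Agent.N975.S17.sum_eq (R := ℤ) hD H h.2.1
  rw [h3] at h4
  simp only [Int.cast_id] at h4
  have h5 : ∑ u ∈ un m, jacobiSym u m * s ((u : ℚ) / m) = cc m ^ 2 := by linarith
  rw [h5] at k2
  have h6 : (3 * x A + z A) ^ 2 = 0 := by
    rw [o1, o2, o3] at h0
    linarith
  have h7 : z A = - 3 * x A := by
    have := pow_eq_zero_iff (two_ne_zero) |>.1 h6
    linarith
  rw [o1, o3, h7] at k2
  rw [o1]
  linarith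

/-- **KAPG** -/
theorem t_KAPG (hPC : S_PC) (hHE : S_HEG) (h1a : S_C1AG) (h1b : S_C1BG) (h2a : S_C2AG)
    (h2b : S_C2BG) (hC : S_CNFG) (hS : S_SY) (hO : S_ORTG) (hD : S_DIAG) : S_KAPG := by
  intro A hA h1
  refine ⟨-(Gg A 1 1 3 : ℚ) / 8, fun m h => ?_⟩
  have h2 := kapg hPC hHE h1a h1b h2a h2b hC hS hO hD h h1
  have h3 : (8 : ℚ) * (P11 1 A (A * m) : ℚ) = - ((Gg A 1 1 3 : ℚ) * (cc m : ℚ) ^ 2) := by
    exact_mod_cast h2
  linarith

end Pool.Agent.N973.P17G
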