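import Pool.Agent.N973.P17G.BILE
import Pool.Agent.N973.P17G.EIS
import Pool.Agent.N975.S17.Ram

/-!
# P17G: the Eisenstein part and the proportionality, even discriminants
-/

set_option autoImplicit false

namespace Pool.Agent.N973.P17G

open Finset
open Pool.Agent.Z700 (hh fac)
open Pool.Agent.N969.P15 (V3 ep2 Ev tb tw psp un c2 chE)
open Pool.Agent.N972.P17
open Pool.Agent.N969.P17G
open Pool.Agent.N973.P17
open Pool.Agent.N975.S17 (Symb17 GG GG_pos symb_eq chrO chrE sum_symb)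
open Pool.Agent.N975.ChE (ev_odd ev_mod chE_prime jac_sqfree c2_mul c2_one c2_pm c2_even)

/-- the comparison of the symbols for even `A` -/
def S_GPE : Prop := ∀ A : ℕ, CpE A → ∀ a b c d : ℤ, a * d - 17 * (b * c) = 1 → 0 < d →
  2 * GgE A b c d = GgE A 1 1 3 * Gs b c d

theorem FgE_sc (A : ℕ) (x M : ℤ) : FgE A (2 * x) (2 * M) = FgE A x M := by
  classical
  unfold FgE
  refine finsum_congr fun q => ?_
  have e : q.1 * (2 * x) ^ 2 + q.2.1 * (2 * x) * (2 * M) + q.2.2 * (2 * M) ^ 2 =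
      4 * (q.1 * x ^ 2 + q.2.1 * x * M + q.2.2 * M ^ 2) := by ring
  have e2 : q.1 * (2 * x) ^ 2 + q.2.1 * (2 * x) * (2 * M) + q.2.2 * (2 * M) ^ 2 < 0 ↔
      q.1 * x ^ 2 + q.2.1 * x * M + q.2.2 * M ^ 2 < 0 := by
    rw [e]
    constructor <;> intro h <;> linarith
  simp only [e2]

theorem bdE_sc (A : ℕ) {x M : ℤ} : bdE A (2 * x) (2 * M) = bdE A x M := by
  unfold bdE
  refine Finset.sum_congr rfl fun C _ => ?_
  have e : (A : ℤ) * ((2 * x) % (2 * M)) - (C : ℤ) * (2 * M) = 2 * (A * (x % M) - C * M) := by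
    rw [Int.mul_emod_mul_of_pos _ _ (by norm_num : (0 : ℤ) < 2)]
    ring
  rw [e, sign_two]

theorem bdE_per (A : ℕ) {x y M : ℤ} (h : M ∣ x - y) : bdE A x M = bdE A y M := by
  unfold bdE
  rw [Int.emod_eq_emod_iff_emod_sub_eq_zero.2 (Int.emod_eq_zero_of_dvd h)]

theorem GgE_eq_Gg (hE : S_EQG) {A : ℕ} (hA : Cp A) (h1 : 1 < A) (b c d : ℤ) :
    GgE A b c d = Gg A b c d := by
  obtain ⟨e1, e2⟩ := hE A hA h1
  unfold GgE Gg
  rw [e1, e2, e2]

/-- the relation for all `A` -/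
theorem rel_all (hE : S_EQG) (hG : S_GPE) {s : ℚ → ℤ} (H : Symb17 s) (h3 : s (1 / 3) = 2)
    (hT : ∀ x, s (2 * x) + s (x / 2) + s ((x + 1) / 2) = - s x) {A : ℕ} (hA : Cp A ∨ CpE A)
    (h1 : 1 < A) : Rel (FgE A) (bdE A) s (GgE A 1 1 3) where
  rel := by
    intro a b c d h hd
    have k1 : 2 * GgE A b c d = GgE A 1 1 3 * Gs b c d := by
      rcases hA with hA | hA
      · rw [GgE_eq_Gg hE hA h1, GgE_eq_Gg hE hA h1]
        exact Pool.Agent.N975.PG.Gg_prop hA h1 h hd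
      · exact hG A hA a b c d h hd
    rw [symb_val H h3 h hd, ← k1]
    unfold GgE
    ring
  Fsc x M _ := FgE_sc A x M
  bsc x M _ := bdE_sc A
  bper x y M h := bdE_per A h
  sper := H.per
  T2 := hT

/-! ### the divisor sums -/

theorem WTgE_eq (h2 : S_C2GE) {A m : ℕ} (h : PrE A m) {k : ℕ} (hk : k = 1 ∨ k = 2) :
    WTgE A m (k * (A * m)) = - AAgE k A (A * m) := by
  unfold WTgE AAgE
  rw [← Finset.sum_neg_distrib]
  refine Finset.sum_congr rfl fun T hT => ?_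
  rw [mem_filter, mem_range] at hT
  rcases Nat.eq_zero_or_pos T with rfl | h0
  · simp [WgE, locE]
  · rw [h2 A m h k hk T h0 hT.1 hT.2]

/-! ### the characters -/

theorem chM_odd {m : ℕ} (hm : Cm m) : chM m = fun u => jacobiSym u m := by
  funext u
  have h4 := hm.2.1
  unfold chM
  have he : m.primeFactors.erase 2 = m.primeFactors := by
    refine Finset.erase_eq_of_notMem fun h => ?_
    have := Nat.dvd_of_mem_primeFactors h
    omega
  rw [if_neg (by omega), one_mul, he, ← jac_prod hm.1]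

theorem chM_even {m : ℕ} (hm : Cme m) : chM m = chE m := by
  funext u
  have := ev_mod hm.1
  unfold chM chE
  rw [if_pos (by omega)]

theorem chP_two_even {A : ℕ} (hA : CpE A) : chP A 2 = 0 := by
  obtain ⟨M, rfl, -⟩ := hA
  unfold chP
  rw [if_pos (by omega), c2_even _ (by norm_num), zero_mul]

theorem chP_two_odd {A : ℕ} (hA : Cp A) : chP A 2 = jacobiSym 2 A := by
  have h4 := hA.2.1
  unfold chP
  have he : A.primeFactors.erase 2 = A.primeFactors := by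
    refine Finset.erase_eq_of_notMem fun h => ?_
    have := Nat.dvd_of_mem_primeFactors h
    omega
  rw [if_neg (by omega), one_mul, he, ← jac_prod hA.1]

theorem e2_eq {A m : ℕ} (h : PrE A m) : chP A 2 + chM m 2 = e2 A m := by
  unfold e2
  obtain ⟨h1 | h1, -⟩ := h
  · have h2 : 2 ∣ A := by
      obtain ⟨M, rfl, -⟩ := h1.1
      omega
    have hm := h1.2.2.1
    rw [chP_two_even h1.1, if_pos h2, chM_odd h1.2, zero_add]
    beta_reduce
    rw [jacobiSym.at_two (Nat.odd_iff.2 (by omega)), ZMod.χ₈_nat_eq_if_mod_eight]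
    unfold ep2
    rw [if_neg (by omega)]
    by_cases h5 : m % 8 = 7
    · rw [if_pos (Or.inr h5), if_pos h5]
    · rw [if_neg (by omega), if_neg h5]
  · have hA := h1.1.2.1
    have hm := ev_mod h1.2.1
    rw [chP_two_odd h1.1, if_neg (by omega)]
    unfold chM
    rw [if_pos (by omega), c2_even _ (by norm_num), zero_mul, add_zero]

/-! ### the two relations -/

/-- the relations between the pair sums and the symbol -/
theorem two_relE (hE : S_EQG) (hG : S_GPE) (hPC : S_PCE) (hHE : S_HEGE) (h1a : S_C1AGE)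
    (h1b : S_C1BGE) (h2 : S_C2GE) (hC : S_CNFGE) {s : ℚ → ℤ} (H : Symb17 s)
    (h3 : s (1 / 3) = 2) (hT : ∀ x, s (2 * x) + s (x / 2) + s ((x + 1) / 2) = - s x) {A m : ℕ}
    (h : PrE A m) (h1 : 1 < A) :
    3 * (GgE A 1 1 3 * ∑ u ∈ un m, chM m u * s ((u : ℚ) / m)) =
      - (2 * (3 * P11E 1 A (A * m) + P22E 1 A (A * m))) ∧
    3 * (GgE A 1 1 3 * ∑ u ∈ un m, chM m u * s ((u : ℚ) / m)) =
      12 * (P11E 1 A (A * m) + P12E A (A * m)) := by
  have hA : Cp A ∨ CpE A := by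
    obtain ⟨h4 | h4, -⟩ := h
    · exact Or.inr h4.1
    · exact Or.inl h4.1
  have R := rel_all hE hG H h3 hT hA h1
  have key : 2 * (2 * ∑ u ∈ un m, chM m u * FgE A u m - 2 * ∑ u ∈ un m, chM m u * bdE A u m) =
      GgE A 1 1 3 * ∑ u ∈ un m, chM m u * s ((u : ℚ) / m) ∧
    2 * (2 * ∑ u ∈ un m, chM m u * (FgE A (2 * u) m + FgE A u (2 * m) + FgE A (u + m) (2 * m)) -
      2 * ∑ u ∈ un m, chM m u * (bdE A (2 * u) m + bdE A u (2 * m) + bdE A (u + m) (2 * m))) =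
    - (GgE A 1 1 3 * ∑ u ∈ un m, chM m u * s ((u : ℚ) / m)) := by
    obtain ⟨h4 | h4, -⟩ := h
    · have X : Ch m (chM m) := by
        rw [chM_odd h4.2]
        exact Ch.of_chr (chrO h4.2.2.1 h4.2.2.2)
      have hm := h4.2.2.1
      exact ⟨sumL R (by omega) (h17m h4.2) X, three_odd R (by omega) (h17m h4.2) X⟩
    · have X : Ch m (chM m) := by
        rw [chM_even h4.2]
        exact Ch.of_chr (chrE h4.2)
      have hm := ev_mod h4.2.1
      have h17 : ¬ 17 ∣ m := n17 h4.2.2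
      refine ⟨sumL R (by omega) h17 X, ?_⟩
      obtain ⟨k, hk⟩ : ∃ k, m = 2 * k := ⟨m / 2, by omega⟩
      have Xh : ∀ j : ℤ, chM m (j + k) = - chM m j := by
        intro j
        rw [chM_even h4.2]
        have := Pool.Agent.N975.CHB.chE_half h4.2.1 j
        have e : (m : ℤ) / 2 = k := by omega
        rw [e] at this
        exact this
      subst hk
      exact three_even R (by omega) (by omega) (fun h5 => h17 (Dvd.dvd.mul_left h5 2)) X Xh
  obtain ⟨k1, k2⟩ := key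
  obtain ⟨c1, c3⟩ := hC A m h h1
  have b1 := t_BIL1GE hPC A m h
  have b2 := t_BIL2GE hPC A m h
  obtain ⟨e1, e2'⟩ := hHE A m h
  have a1 := h1a A m h h1
  have a2 := h1b A m h h1
  have w1 := WTgE_eq h2 h (k := 1) (Or.inl rfl)
  rw [one_mul] at w1
  rw [w1] at a1
  rw [WTgE_eq h2 h (Or.inr rfl)] at a2
  rw [a1] at k1
  rw [a2] at k2
  rw [e1, e2', ← e2_eq h] at b2
  generalize ∑ u ∈ un m, chM m u * s ((u : ℚ) / m) = σ at k1 k2 ⊢
  generalize ∑ u ∈ un m, chM m u * bdE A u m = y1 at k1 c1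
  generalize ∑ u ∈ un m, chM m u * (bdE A (2 * u) m + bdE A u (2 * m) +
    bdE A (u + m) (2 * m)) = y3 at k2 c3
  constructor
  · linear_combination -3 * k1 - 4 * c1 + 2 * b1
  · linear_combination 3 * k2 + 4 * c3 - 2 * b2

/-- **EISGE** -/
theorem t_EISGE (hE : S_EQG) (hG : S_GPE) (hPC : S_PCE) (hHE : S_HEGE) (h1a : S_C1AGE)
    (h1b : S_C1BGE) (h2 : S_C2GE) (hC : S_CNFGE) (hS : S_SY) : S_EISGE := by
  intro A m h h1
  obtain ⟨s, H, h3, hT⟩ := hS
  obtain ⟨k1, k2⟩ := two_relE hE hG hPC hHE h1a h1b h2 hC H h3 hT h h1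
  linarith

/-- the character sum of the symbol -/
theorem sum_cc (hD : S_DIAG) (hDE : S_DIAGE) {s : ℚ → ℤ} (H : Symb17 s) (h3 : s (1 / 3) = 2)
    {m : ℕ} (hm : Cm m ∨ Cme m) : ∑ u ∈ un m, chM m u * s ((u : ℚ) / m) = cc m ^ 2 := by
  rcases hm with hm | hm
  · have h4 := Pool.Agent.N975.S17.sum_eq (R := ℤ) hD H hm
    rw [h3] at h4
    simp only [Int.cast_id] at h4
    rw [chM_odd hm]
    linarith
  · have h0 := ev_mod hm.1
    have h4 := sum_symb (R := ℤ) H (n := m) (by omega) (n17 hm.2) (chrE hm)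
    rw [hDE m hm, h3] at h4
    simp only [Int.cast_id] at h4
    rw [chM_even hm]
    linarith

/-- the proportionality with the constant, even products -/
theorem kapge (hE : S_EQG) (hG : S_GPE) (hPC : S_PCE) (hHE : S_HEGE) (h1a : S_C1AGE)
    (h1b : S_C1BGE) (h2 : S_C2GE) (hC : S_CNFGE) (hS : S_SY) (hO : S_ORTGE) (hD : S_DIAG)
    (hDE : S_DIAGE) {A m : ℕ} (h : PrE A m) (h1 : 1 < A) :
    8 * P11E 1 A (A * m) = - (GgE A 1 1 3 * cc m ^ 2) := by
  have h0 := t_EISGE hE hG hPC hHE h1a h1b h2 hC hS A m h h1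
  obtain ⟨s, H, h3, hT⟩ := hS
  obtain ⟨k1, k2⟩ := two_relE hE hG hPC hHE h1a h1b h2 hC H h3 hT h h1
  have hA0 : 0 < A := by omega
  have hmA : A * m / A = m := Nat.mul_div_cancel_left _ hA0
  obtain ⟨x, z, ho, -⟩ := hO (A * m) A (cme_mul h) (dvd_mul_right A m) (by rw [hmA]; exact h.2)
  obtain ⟨o1, o2, o3⟩ := ho A dvd_rfl (by rw [hmA]; exact h.2)
  have hm : Cm m ∨ Cme m := by
    obtain ⟨h4 | h4, -⟩ := h
    · exact Or.inl h4.2
    · exact Or.inr h4.2
  rw [sum_cc hD hDE H h3 hm] at k2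
  have h6 : (3 * x A + z A) ^ 2 = 0 := by
    rw [o1, o2, o3] at h0
    linarith
  have h7 : z A = - 3 * x A := by
    have := pow_eq_zero_iff (two_ne_zero) |>.1 h6
    linarith
  rw [o1, o3, h7] at k2
  rw [o1]
  linarith

/-- **KAPGE** -/
theorem t_KAPGE (hE : S_EQG) (hG : S_GPE) (hPC : S_PC) (hPCE : S_PCE) (hHE : S_HEG)
    (hHEE : S_HEGE) (h1a : S_C1AG) (h1b : S_C1BG) (h1ae : S_C1AGE) (h1be : S_C1BGE)
    (h2a : S_C2AG) (h2b : S_C2BG) (h2e : S_C2GE) (hC : S_CNFG) (hCE : S_CNFGE) (hS : S_SY)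
    (hO : S_ORTG) (hOE : S_ORTGE) (hD : S_DIAG) (hDE : S_DIAGE) : S_KAPGE := by
  intro A hA h1
  refine ⟨-(GgE A 1 1 3 : ℚ) / 8, fun m h => ?_, fun m h => ?_⟩
  · have k := kapg hPC hHE h1a h1b h2a h2b hC hS hO hD h h1
    rw [← GgE_eq_Gg hE h.1 h1] at k
    have h3 : (8 : ℚ) * (P11 1 A (A * m) : ℚ) = - ((GgE A 1 1 3 : ℚ) * (cc m : ℚ) ^ 2) := by
      exact_mod_cast k
    linarith
  · have k := kapge hE hG hPCE hHEE h1ae h1be h2e hCE hS hOE hD hDE h h1
    have h3 : (8 : ℚ) * (P11E 1 A (A * m) : ℚ) = - ((GgE A 1 1 3 : ℚ) * (cc m : ℚ) ^ 2) := by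
      exact_mod_cast k
    linarith

end Pool.Agent.N973.P17G
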