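import Pool.Agent.N969.P17G.Defs
import Pool.Agent.N973.P17.BIL

/-!
# P17G: the bilinear identities with genus characters
-/

set_option autoImplicit false

namespace Pool.Agent.N973.P17G

open Finset
open Pool.Agent.Z700 (hh fac)
open Pool.Agent.N969.P15 (V3 ep2 tb tw psp un)
open Pool.Agent.N972.P17
open Pool.Agent.N969.P17G
open Pool.Agent.N973.P17

/-! ### the Jacobi symbol -/

theorem jac_prod {n : ℕ} (hn : Squarefree n) (a : ℤ) :
    jacobiSym a n = ∏ p ∈ n.primeFactors, jacobiSym a p := by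
  have h1 : ∀ S : Finset ℕ, (∀ p ∈ S, p.Prime) →
      jacobiSym a (∏ p ∈ S, p) = ∏ p ∈ S, jacobiSym a p := by
    intro S
    induction S using Finset.induction_on with
    | empty => intro _; simp
    | insert p S hp ih =>
      intro h
      rw [Finset.prod_insert hp, Finset.prod_insert hp]
      have hp0 : p ≠ 0 := (h p (Finset.mem_insert_self p S)).ne_zero
      have hS0 : (∏ q ∈ S, q) ≠ 0 := Finset.prod_ne_zero_iff.2 fun q hq =>
        (h q (Finset.mem_insert_of_mem hq)).ne_zero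
      have : NeZero p := ⟨hp0⟩
      have : NeZero (∏ q ∈ S, q) := ⟨hS0⟩
      rw [jacobiSym.mul_right, ih fun q hq => h q (Finset.mem_insert_of_mem hq)]
  conv_lhs => rw [← Nat.prod_primeFactors_of_squarefree hn]
  exact h1 _ fun p hp => Nat.prime_of_mem_primeFactors hp

theorem jac_neg_one {A : ℕ} (h : A % 4 = 1) : jacobiSym (-1) A = 1 := by
  rw [jacobiSym.at_neg_one (Nat.odd_iff.2 (by omega)), ZMod.χ₄_nat_mod_four, h]
  rfl

theorem jac_unit {p : ℕ} (hp : p.Prime) {a : ℤ} (h : ¬ (p : ℤ) ∣ a) :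
    jacobiSym a p = 1 ∨ jacobiSym a p = -1 := by
  rcases jacobiSym.trichotomy a p with h1 | h1 | h1
  · exfalso
    rw [jacobiSym.eq_zero_iff] at h1
    apply h
    have h2 : a.gcd p ∣ p := by exact_mod_cast Int.gcd_dvd_right a p
    rcases (Nat.dvd_prime hp).1 h2 with h3 | h3
    · exact absurd h3 h1.2
    · rw [← h3]
      exact Int.gcd_dvd_left a p
  · exact Or.inl h1
  · exact Or.inr h1

theorem jac_sq_cancel {p : ℕ} (hp : p.Prime) {a : ℤ} (h : ¬ (p : ℤ) ∣ a) :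
    jacobiSym a p * jacobiSym a p = 1 := by
  rcases jac_unit hp h with h1 | h1 <;> rw [h1] <;> norm_num

theorem jac_congr {p : ℕ} {a b : ℤ} (h : (p : ℤ) ∣ a - b) : jacobiSym a p = jacobiSym b p := by
  rw [jacobiSym.mod_left a, jacobiSym.mod_left b,
    Int.emod_eq_emod_iff_emod_sub_eq_zero.2 (Int.emod_eq_zero_of_dvd h)]

/-! ### the signs -/

theorem fac_cond {p n S1 T1 : ℕ} (hp : p.Prime) (hp2 : p ≠ 2) (hpn : p ∣ n) (hS : ¬ p ∣ S1)
    (hT : ¬ p ∣ T1) (h : fac n (4 * (p * S1) * (p * T1)) p ≠ 0) :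
    jacobiSym (-((S1 : ℤ) * T1)) p = 1 := by
  have h4 : ¬ p ∣ 4 := by
    intro h4
    have : p ∣ 2 ^ 2 := by norm_num; exact h4
    exact hp2 ((Nat.prime_dvd_prime_iff_eq hp Nat.prime_two).1 (hp.dvd_of_dvd_pow this))
  have hc : ¬ p ∣ 4 * S1 * T1 := by
    rw [hp.dvd_mul, hp.dvd_mul]
    tauto
  have e : 4 * (p * S1) * (p * T1) = p ^ 2 * (4 * S1 * T1) := by ring
  have hc0 : 4 * S1 * T1 ≠ 0 := fun h => hc (h ▸ dvd_zero p)
  have hf : (4 * (p * S1) * (p * T1)).factorization p = 2 := by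
    rw [e, Nat.factorization_mul (pow_ne_zero _ hp.ne_zero) hc0, Finsupp.add_apply,
      hp.factorization_pow, Finsupp.single_eq_same, Nat.factorization_eq_zero_of_not_dvd hc]
  unfold fac hh at h
  rw [if_pos hpn, hf, if_pos (by decide : Even 2), e,
    Nat.mul_div_cancel_left _ (pow_pos hp.pos 2)] at h
  have e2 : jacobiSym (-((4 * S1 * T1 : ℕ) : ℤ)) p = jacobiSym (-((S1 : ℤ) * T1)) p := by
    have e3 : -((4 * S1 * T1 : ℕ) : ℤ) = 2 * (2 * (-((S1 : ℤ) * T1))) := by push_cast; ring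
    have hu : ¬ (p : ℤ) ∣ 2 := by
      intro h5
      have h6 : p ∣ 2 := by exact_mod_cast h5
      exact hp2 ((Nat.prime_dvd_prime_iff_eq hp Nat.prime_two).1 h6)
    rw [e3, jacobiSym.mul_left, jacobiSym.mul_left, ← mul_assoc, jac_sq_cancel hp hu, one_mul]
  rw [e2] at h
  have hu : ¬ (p : ℤ) ∣ -((S1 : ℤ) * T1) := by
    rw [dvd_neg]
    intro h5
    have h6 : p ∣ S1 * T1 := by exact_mod_cast h5
    rcases hp.dvd_mul.1 h6 with h7 | h7
    · exact hS h7
    · exact hT h7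
  rcases jac_unit hp hu with h7 | h7
  · exact h7
  · rw [h7] at h
    exact absurd rfl h

theorem sgp_sym {k n p S T : ℕ} (hp : p.Prime) (hp2 : p ≠ 2) (hpn : p ∣ n) (hpn2 : ¬ p ∣ n / p)
    (hk : ¬ p ∣ k) (hST : S + T = k * n) (h : p ∣ T → fac n (4 * S * T) p ≠ 0) :
    sgp k n p S = jacobiSym (-1) p * sgp k n p T := by
  have hpp : 0 < p := hp.pos
  have hpz : (p : ℤ) ≠ 0 := by exact_mod_cast hp.ne_zero
  have hp1 : ¬ (p : ℤ) ∣ 1 := by
    intro h1
    have h2 : p ∣ 1 := by exact_mod_cast h1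
    exact hp.one_lt.ne' (Nat.dvd_one.1 h2)
  have hm1 : jacobiSym (-1) p * jacobiSym (-1) p = 1 :=
    jac_sq_cancel hp (by rw [dvd_neg]; exact hp1)
  obtain ⟨m, hm⟩ := hpn
  have hm' : n / p = m := by rw [hm, Nat.mul_div_cancel_left _ hpp]
  rw [hm'] at hpn2
  have hmz : ¬ (p : ℤ) ∣ (m : ℤ) := by
    intro h1; exact hpn2 (by exact_mod_cast h1)
  have hkz : ¬ (p : ℤ) ∣ (k : ℤ) := by
    intro h1; exact hk (by exact_mod_cast h1)
  by_cases hT : p ∣ T
  · have hS : p ∣ S := by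
      have h1 : p ∣ S + T := by rw [hST, hm]; exact ⟨k * m, by ring⟩
      exact (Nat.dvd_add_iff_left hT).2 h1
    obtain ⟨T1, rfl⟩ := hT
    obtain ⟨S1, rfl⟩ := hS
    have hsum : S1 + T1 = k * m := by
      have h1 : p * (S1 + T1) = p * (k * m) := by rw [mul_add, hST, hm]; ring
      exact Nat.eq_of_mul_eq_mul_left hpp h1
    have hsumz : (S1 : ℤ) + T1 = k * m := by exact_mod_cast hsum
    have d1 : (p : ℤ) ∣ ((p * S1 : ℕ) : ℤ) := ⟨S1, by push_cast; ring⟩
    have d2 : (p : ℤ) ∣ ((p * T1 : ℕ) : ℤ) := ⟨T1, by push_cast; ring⟩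
    have q1 : ((p * S1 : ℕ) : ℤ) / p = S1 := by
      push_cast; rw [Int.mul_ediv_cancel_left _ hpz]
    have q2 : ((p * T1 : ℕ) : ℤ) / p = T1 := by
      push_cast; rw [Int.mul_ediv_cancel_left _ hpz]
    unfold sgp
    rw [if_pos d1, if_pos d2, q1, q2, hm']
    by_cases h1 : (p : ℤ) ∣ (T1 : ℤ)
    · have h2 : ¬ (p : ℤ) ∣ (S1 : ℤ) := by
        intro h3
        have h4 := dvd_add h3 h1
        rw [hsumz] at h4
        rcases (Nat.prime_iff_prime_int.1 hp).dvd_or_dvd h4 with h5 | h5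
        · exact hkz h5
        · exact hmz h5
      rw [if_pos h1, if_neg h2]
      have e1 : jacobiSym ((S1 : ℤ) * (m : ℤ)) p = jacobiSym (k : ℤ) p := by
        rw [jac_congr (b := (k : ℤ) * (m * m)), jacobiSym.mul_left, jacobiSym.mul_left,
          jac_sq_cancel hp hmz, mul_one]
        have e3 : (S1 : ℤ) * m - k * (m * m) = -(T1 * m) := by
          have : (S1 : ℤ) = k * m - T1 := by linarith
          rw [this]; ring
        rw [e3, dvd_neg]
        exact Dvd.dvd.mul_right h1 _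
      have e2 : jacobiSym (-(k : ℤ)) p = jacobiSym (-1) p * jacobiSym (k : ℤ) p := by
        rw [← jacobiSym.mul_left, neg_one_mul]
      rw [e1, e2, ← mul_assoc, hm1, one_mul]
    · by_cases h2 : (p : ℤ) ∣ (S1 : ℤ)
      · rw [if_neg h1, if_pos h2]
        have e1 : jacobiSym ((T1 : ℤ) * (m : ℤ)) p = jacobiSym (k : ℤ) p := by
          rw [jac_congr (b := (k : ℤ) * (m * m)), jacobiSym.mul_left, jacobiSym.mul_left,
            jac_sq_cancel hp hmz, mul_one]
          have e3 : (T1 : ℤ) * m - k * (m * m) = -(S1 * m) := by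
            have : (T1 : ℤ) = k * m - S1 := by linarith
            rw [this]; ring
          rw [e3, dvd_neg]
          exact Dvd.dvd.mul_right h2 _
        rw [e1, ← jacobiSym.mul_left, neg_one_mul]
      · rw [if_neg h1, if_neg h2]
        have h3 := fac_cond hp hp2 ⟨m, hm⟩ (fun h => h2 (by exact_mod_cast h))
          (fun h => h1 (by exact_mod_cast h)) (h (dvd_mul_right p T1))
        have e1 : jacobiSym ((S1 : ℤ) * (m : ℤ)) p =
            jacobiSym (S1 : ℤ) p * jacobiSym (m : ℤ) p := jacobiSym.mul_left _ _ _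
        have e2 : jacobiSym ((T1 : ℤ) * (m : ℤ)) p =
            jacobiSym (T1 : ℤ) p * jacobiSym (m : ℤ) p := jacobiSym.mul_left _ _ _
        have e3 : -((S1 : ℤ) * T1) = -1 * (S1 * T1) := by ring
        rw [e3, jacobiSym.mul_left, jacobiSym.mul_left] at h3
        have h4 := jac_sq_cancel hp h2
        have h5 := jac_sq_cancel hp h1
        rw [e1, e2]
        have h6 : jacobiSym (S1 : ℤ) p = jacobiSym (-1) p * jacobiSym (T1 : ℤ) p := by
          calc jacobiSym (S1 : ℤ) p = jacobiSym (S1 : ℤ) p *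
                (jacobiSym (-1) p * (jacobiSym (S1 : ℤ) p * jacobiSym (T1 : ℤ) p)) := by
                rw [h3, mul_one]
            _ = (jacobiSym (S1 : ℤ) p * jacobiSym (S1 : ℤ) p) *
                (jacobiSym (-1) p * jacobiSym (T1 : ℤ) p) := by ring
            _ = _ := by rw [h4, one_mul]
        rw [h6]
        ring
  · have hT' : ¬ (p : ℤ) ∣ (T : ℤ) := by intro h1; exact hT (by exact_mod_cast h1)
    have hsz : (S : ℤ) + T = k * (p * m) := by rw [hm] at hST; exact_mod_cast hST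
    have hS' : ¬ (p : ℤ) ∣ (S : ℤ) := by
      intro h1
      apply hT'
      have : (T : ℤ) = k * (p * m) - S := by linarith
      rw [this]
      exact dvd_sub ⟨k * m, by ring⟩ h1
    unfold sgp
    rw [if_neg hT', if_neg hS', jac_congr (b := -1 * (T : ℤ)), jacobiSym.mul_left]
    have : (S : ℤ) - -1 * T = p * (k * m) := by linarith
    rw [this]
    exact dvd_mul_right _ _

theorem sgn_sym {k A n S T : ℕ} (hn : Squarefree n) (hodd : n % 2 = 1) (hA : A ∣ n)
    (hA4 : A % 4 = 1) (hk : k = 1 ∨ k = 2) (hST : S + T = k * n)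
    (h : ∀ p ∈ A.primeFactors, p ∣ T → fac n (4 * S * T) p ≠ 0) :
    sgn k A n S = sgn k A n T := by
  have hAs : Squarefree A := hn.squarefree_of_dvd hA
  unfold sgn
  have e : ∀ p ∈ A.primeFactors, sgp k n p S = jacobiSym (-1) p * sgp k n p T := by
    intro p hp
    have hpp := Nat.prime_of_mem_primeFactors hp
    have hpn : p ∣ n := (Nat.dvd_of_mem_primeFactors hp).trans hA
    have hp2 : p ≠ 2 := by rintro rfl; omega
    refine sgp_sym hpp hp2 hpn ?_ ?_ hST (h p hp)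
    · intro h1
      have h2 : p * p ∣ n := by
        obtain ⟨c, hc⟩ := h1
        exact ⟨c, by rw [← Nat.mul_div_cancel' hpn, hc]; ring⟩
      exact hpp.one_lt.ne' (Nat.isUnit_iff.1 (hn p h2))
    · rcases hk with rfl | rfl
      · intro h1; exact hpp.one_lt.ne' (Nat.dvd_one.1 h1)
      · intro h1; exact hp2 ((Nat.prime_dvd_prime_iff_eq hpp Nat.prime_two).1 h1)
  rw [Finset.prod_congr rfl e, Finset.prod_mul_distrib, ← jac_prod hAs, jac_neg_one hA4, one_mul]

/-- the signs at the ends -/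
theorem sgn_end {k A n : ℕ} (hn : Squarefree n) (hodd : n % 2 = 1) (hA : A ∣ n)
    (hA4 : A % 4 = 1) (hk : k = 1 ∨ k = 2) :
    sgn k A n (k * n : ℕ) = jacobiSym k A ∧ sgn k A n 0 = jacobiSym k A := by
  have hAs : Squarefree A := hn.squarefree_of_dvd hA
  have key : ∀ p ∈ A.primeFactors, p.Prime ∧ ¬ (p : ℤ) ∣ (k : ℤ) ∧ p ∣ n ∧
      ¬ (p : ℤ) ∣ ((n / p : ℕ) : ℤ) := by
    intro p hp
    have hpp := Nat.prime_of_mem_primeFactors hp
    have hpn : p ∣ n := (Nat.dvd_of_mem_primeFactors hp).trans hA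
    have hp2 : p ≠ 2 := by rintro rfl; omega
    refine ⟨hpp, ?_, hpn, ?_⟩
    · intro h0
      have h1 : p ∣ k := by exact_mod_cast h0
      rcases hk with rfl | rfl
      · exact hpp.one_lt.ne' (Nat.dvd_one.1 h1)
      · exact hp2 ((Nat.prime_dvd_prime_iff_eq hpp Nat.prime_two).1 h1)
    · intro h0
      have h1 : p ∣ n / p := by exact_mod_cast h0
      have h2 : p * p ∣ n := by
        obtain ⟨c, hc⟩ := h1
        exact ⟨c, by rw [← Nat.mul_div_cancel' hpn, hc]; ring⟩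
      exact hpp.one_lt.ne' (Nat.isUnit_iff.1 (hn p h2))
  constructor
  · unfold sgn
    rw [jac_prod hAs]
    refine Finset.prod_congr rfl fun p hp => ?_
    obtain ⟨hpp, h1, h2, h3⟩ := key p hp
    have hpz : (p : ℤ) ≠ 0 := by exact_mod_cast hpp.ne_zero
    have e : ((k * n : ℕ) : ℤ) = p * (k * ((n / p : ℕ) : ℤ)) := by
      have : ((n : ℕ) : ℤ) = p * ((n / p : ℕ) : ℤ) := by
        exact_mod_cast (Nat.mul_div_cancel' h2).symm
      push_cast at this ⊢
      rw [this]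
      have h5 : (p : ℤ) * ((p : ℤ) * ((n : ℤ) / (p : ℤ)) / (p : ℤ)) = p * ((n : ℤ) / (p : ℤ)) := by
        rw [Int.mul_ediv_cancel_left _ hpz]
      rw [Int.mul_ediv_cancel_left _ hpz]
      ring
    unfold sgp
    rw [e, if_pos (dvd_mul_right _ _), Int.mul_ediv_cancel_left _ hpz, if_neg]
    · rw [mul_assoc, jacobiSym.mul_left, jacobiSym.mul_left, jac_sq_cancel hpp h3, mul_one]
    · intro h4
      rcases (Nat.prime_iff_prime_int.1 hpp).dvd_or_dvd h4 with h5 | h5
      · exact h1 h5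
      · exact h3 h5
  · unfold sgn
    have e : ∀ p ∈ A.primeFactors, sgp k n p 0 = jacobiSym (-1) p * jacobiSym k p := by
      intro p hp
      unfold sgp
      rw [if_pos (dvd_zero _), Int.zero_ediv, if_pos (dvd_zero _), ← jacobiSym.mul_left,
        neg_one_mul]
    rw [Finset.prod_congr rfl e, Finset.prod_mul_distrib, ← jac_prod hAs, ← jac_prod hAs,
      jac_neg_one hA4, one_mul]

/-! ### the weighted sums over the inner products -/

theorem sum_fib {q : V3 → V3 → ℤ} (hq : IsF q) {n n2 N : ℤ} {A B : Finset V3}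
    (hA : ∀ v, v ∈ A ↔ q v v = n) (hB : ∀ v, v ∈ B ↔ q v v = n2) (hN : n * n2 = N ^ 2)
    (hN0 : 0 ≤ N) (σ : ℤ → ℤ) :
    ∑ v ∈ A, ∑ w ∈ B, σ (q v w) =
      ∑ b ∈ Icc (-N) N, (((A ×ˢ B).filter fun z => q z.1 z.2 = b).card : ℤ) * σ b := by
  rw [← Finset.sum_product', ← Finset.sum_fiberwise_of_maps_to
    (g := fun z : V3 × V3 => q z.1 z.2) (t := Icc (-N) N)]
  · refine Finset.sum_congr rfl fun b _ => ?_
    rw [Finset.sum_congr rfl (g := fun _ => σ b), Finset.sum_const, nsmul_eq_mul]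
    intro z hz
    rw [(Finset.mem_filter.1 hz).2]
  · intro z hz
    rw [Finset.mem_product, hA, hB] at hz
    have h4 := hq.cs z.1 z.2
    rw [hz.1, hz.2, hN] at h4
    rw [Finset.mem_Icc]
    exact abs_le.1 (abs_le_of_sq_le_sq h4 hN0)

/-- the sum over the inner products, with the prime `l` not dividing `N` -/
theorem sum_mid' {l N : ℕ} (hl : l.Prime) (hl2 : l ≠ 2) (hlN : ¬ l ∣ N) (P : ℤ → ℤ)
    (hs : ∀ b : ℤ, -(N : ℤ) < b → b < N → P (-b) = P b)
    (h0 : ∀ b : ℤ, -(N : ℤ) < b → b < N → ¬ (l : ℤ) ∣ (N : ℤ) ^ 2 - b ^ 2 → P b = 0)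
    (h2 : ∀ b : ℤ, -(N : ℤ) < b → b < N → ¬ (2 : ℤ) ∣ (N : ℤ) - b → P b = 0) :
    ∑ b ∈ Ioo (-(N : ℤ)) N, P b =
      2 * ∑ T ∈ (range N).filter (fun T => 0 < T ∧ l ∣ T), P (2 * T - (N : ℤ)) := by
  have e : ∀ b ∈ Ioo (-(N : ℤ)) N, P b = (fun b => if -(N : ℤ) < b ∧ b < N then P b else 0) b := by
    intro b hb
    rw [Finset.mem_Ioo] at hb
    simp only [hb, and_self, if_true]
  rw [Finset.sum_congr rfl e]
  rw [sum_mid hl hl2 hlN (fun b => if -(N : ℤ) < b ∧ b < N then P b else 0)]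
  · congr 1
    refine Finset.sum_congr rfl fun T hT => ?_
    rw [Finset.mem_filter, Finset.mem_range] at hT
    have h3 : -(N : ℤ) < (N : ℤ) - 2 * T ∧ (N : ℤ) - 2 * T < N := by omega
    simp only [h3, and_self, if_true]
    have e2 : (2 * T - (N : ℤ)) = -((N : ℤ) - 2 * T) := by ring
    rw [e2, hs _ h3.1 h3.2]
  · intro b
    by_cases h : -(N : ℤ) < b ∧ b < N
    · rw [if_pos h, if_pos (by omega), hs b h.1 h.2]
    · rw [if_neg h, if_neg (by omega)]
  · intro b h1 h3 h4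
    simp only [h1, h3, and_self, if_true]
    exact h0 b h1 h3 h4
  · intro b h1 h3 h4
    simp only [h1, h3, and_self, if_true]
    exact h2 b h1 h3 h4

/-- **the bilinear identities** in general -/
theorem bilg_core {n k : ℕ} (hn : 0 < n) (hk : 0 < k) (h17 : ¬ 17 ∣ k * n) (L : ℤ → ℕ → ℤ)
    (σ : ℤ → ℤ)
    (hC : ∀ (b : ℤ) (D : ℕ), 0 < D → (D : ℤ) = n * (k ^ 2 * n : ℕ) - b ^ 2 →
      (3 * cp1 n b (k ^ 2 * n : ℕ) + cp2 n b (k ^ 2 * n : ℕ) : ℤ) = 6 * L b D)
    (hz : ∀ (b : ℤ) (D : ℕ), ¬ (2 : ℤ) ∣ (k * n : ℕ) - b → 0 < D →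
      (D : ℤ) = n * (k ^ 2 * n : ℕ) - b ^ 2 → L b D = 0)
    (hz17 : ∀ (b : ℤ) (D : ℕ), ¬ 17 ∣ D → L b D = 0) (hL0 : L (-(k * n : ℕ)) 0 = 0)
    (hσ : ∀ (b : ℤ) (D : ℕ), 0 < D → (D : ℤ) = n * (k ^ 2 * n : ℕ) - b ^ 2 →
      L b D * σ (-b) = L b D * σ b) :
    3 * ∑ v ∈ vec1 n, ∑ w ∈ vec1 (k ^ 2 * n : ℕ), σ (ip1 v w) +
      ∑ v ∈ vec2 n, ∑ w ∈ vec2 (k ^ 2 * n : ℕ), σ (ip2 v w) =
      (σ (k * n : ℕ) + σ (-(k * n : ℕ))) * rr n +
      12 * ∑ T ∈ (range (k * n)).filter (fun T => 17 ∣ T),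
        L (2 * T - ((k * n : ℕ) : ℤ)) (4 * (k * n - T) * T) * σ (2 * T - ((k * n : ℕ) : ℤ)) := by
  set N : ℕ := k * n with hNdef
  set n2 : ℕ := k ^ 2 * n with hn2
  have hN0 : 0 < N := Nat.mul_pos hk hn
  have hNN : (n : ℤ) * n2 = (N : ℤ) ^ 2 := by
    rw [hNdef, hn2]; push_cast; ring
  have hB : ((n2 : ℕ) : ℤ) = (k : ℤ) ^ 2 * n := by rw [hn2]; push_cast; ring
  have hNk : ((N : ℕ) : ℤ) = (k : ℤ) * n := by rw [hNdef]; push_cast; ring
  set P : ℤ → ℤ := fun b => (3 * (cp1 n b n2 : ℤ) + cp2 n b n2) * σ b with hP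
  have f1 := sum_fib isF1 (n := n) (n2 := n2) (N := N) (A := vec1 n) (B := vec1 n2)
    (fun _ => mem_vec1) (fun _ => mem_vec1) hNN (by omega) σ
  have f2 := sum_fib isF2 (n := n) (n2 := n2) (N := N) (A := vec2 n) (B := vec2 n2)
    (fun _ => mem_vec2) (fun _ => mem_vec2) hNN (by omega) σ
  have f3 : 3 * ∑ v ∈ vec1 n, ∑ w ∈ vec1 n2, σ (ip1 v w) +
      ∑ v ∈ vec2 n, ∑ w ∈ vec2 n2, σ (ip2 v w) = ∑ b ∈ Icc (-(N : ℤ)) N, P b := by
    rw [f1, f2, hP, Finset.mul_sum, ← Finset.sum_add_distrib]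
    refine Finset.sum_congr rfl fun b _ => ?_
    unfold cp1 cp2
    ring
  have s1 : ∀ b, (cp1 n (-b) n2) = cp1 n b n2 := fun b =>
    card_neg isF1 (fun v hv => by rw [mem_vec1] at hv ⊢; rw [isF1.neg', hv]) b
  have s2 : ∀ b, (cp2 n (-b) n2) = cp2 n b n2 := fun b =>
    card_neg isF2 (fun v hv => by rw [mem_vec2] at hv ⊢; rw [isF2.neg', hv]) b
  have hD : ∀ b : ℤ, -(N : ℤ) < b → b < N → ∃ D : ℕ, 0 < D ∧ (D : ℤ) = n * n2 - b ^ 2 := by
    intro b h1 h2
    have hpos : 0 < (N : ℤ) ^ 2 - b ^ 2 := by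
      have e : (N : ℤ) ^ 2 - b ^ 2 = (N - b) * (N + b) := by ring
      rw [e]
      exact mul_pos (by omega) (by omega)
    refine ⟨((N : ℤ) ^ 2 - b ^ 2).toNat, by omega, ?_⟩
    rw [Int.toNat_of_nonneg hpos.le, hNN]
  have s3 : ∀ b : ℤ, -(N : ℤ) < b → b < N → P (-b) = P b := by
    intro b h1 h2
    obtain ⟨D, hD0, hDD⟩ := hD b h1 h2
    simp only [hP]
    rw [s1, s2, hC b D hD0 hDD, mul_assoc, mul_assoc, hσ b D hD0 hDD]
  have e1 : cp1 n N n2 = (vec1 n).card := by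
    unfold cp1
    rw [hNk, hB]
    exact card_end isF1 (fun _ => mem_vec1) (fun _ => mem_vec1)
  have e2 : cp2 n N n2 = (vec2 n).card := by
    unfold cp2
    rw [hNk, hB]
    exact card_end isF2 (fun _ => mem_vec2) (fun _ => mem_vec2)
  have e3 : P N = rr n * σ N := by
    simp only [hP]
    rw [e1, e2]
    rfl
  have e4 : P (-N) = rr n * σ (-N) := by
    simp only [hP]
    rw [s1, s2, e1, e2]
    rfl
  have m1 : ∑ b ∈ Ioo (-(N : ℤ)) N, P b =
      2 * ∑ T ∈ (range N).filter (fun T => 0 < T ∧ 17 ∣ T), P (2 * T - (N : ℤ)) := by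
    refine sum_mid' (by norm_num) (by norm_num) h17 P s3 ?_ ?_
    · intro b h1 h2 h3
      obtain ⟨D, hD0, hDD⟩ := hD b h1 h2
      simp only [hP]
      rw [hC b D hD0 hDD, hz17 b D, mul_zero, zero_mul]
      intro h
      apply h3
      rw [← hNN, ← hDD]
      exact_mod_cast h
    · intro b h1 h2 h3
      obtain ⟨D, hD0, hDD⟩ := hD b h1 h2
      simp only [hP]
      rw [hC b D hD0 hDD, hz b D h3 hD0 hDD, mul_zero, zero_mul]
  have m2 : ∑ T ∈ (range N).filter (fun T => 0 < T ∧ 17 ∣ T), P (2 * T - (N : ℤ)) =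
      6 * ∑ T ∈ (range N).filter (fun T => 17 ∣ T),
        L (2 * T - (N : ℤ)) (4 * (N - T) * T) * σ (2 * T - (N : ℤ)) := by
    rw [Finset.mul_sum]
    refine Finset.sum_subset_zero_on_sdiff ?_ ?_ ?_
    · intro T hT
      rw [Finset.mem_filter] at hT ⊢
      exact ⟨hT.1, hT.2.2⟩
    · intro T hT
      rw [Finset.mem_sdiff, Finset.mem_filter, Finset.mem_filter] at hT
      have : T = 0 := by
        by_contra h
        exact hT.2 ⟨hT.1.1, Nat.pos_of_ne_zero h, hT.1.2⟩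
      subst this
      have e : 2 * ((0 : ℕ) : ℤ) - (N : ℤ) = -N := by push_cast; ring
      rw [mul_zero, e, hL0, zero_mul, mul_zero]
    · intro T hT
      rw [Finset.mem_filter, Finset.mem_range] at hT
      simp only [hP]
      rw [hC (2 * T - (N : ℤ)) (4 * (N - T) * T) (Nat.mul_pos (by omega) hT.2.1) ?_, mul_assoc]
      rw [hNN]
      push_cast [Nat.cast_sub hT.1.le]
      ring
  rw [f3, sum_ends N hN0, e3, e4, m1, m2]
  ring

/-- the odd case for both values of `k` -/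
theorem bilg_odd (hPC : S_PC) {A n k : ℕ} (hn : Cm n) (hA : A ∣ n) (hA4 : A % 4 = 1)
    (hk : k = 1 ∨ k = 2) :
    3 * P11 k A n + P22 k A n = 12 * AAg k A n + 2 * (jacobiSym k A * rr n) := by
  obtain ⟨hs, h4, h17⟩ := hn
  have hp : 0 < n := by omega
  have h17' := n17 h17
  set σ : ℤ → ℤ := fun b => sgn k A n ((k * n + b) / 2) with hσdef
  have hkn : ¬ 17 ∣ k * n := by
    rcases hk with rfl | rfl
    · rwa [one_mul]
    · rw [Nat.Prime.dvd_mul (by norm_num)]
      rintro (h | h)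
      · omega
      · exact h17' h
  have hpar : ∀ (b : ℤ) (D : ℕ), ¬ (2 : ℤ) ∣ (k * n : ℕ) - b → 0 < D →
      (D : ℤ) = n * (k ^ 2 * n : ℕ) - b ^ 2 → loc n D = 0 := by
    intro b D hb hD hDD
    refine loc_odd n D ?_
    intro h
    have h1 : (2 : ℤ) ∣ (D : ℤ) := by exact_mod_cast h
    have e : (n : ℤ) * (k ^ 2 * n : ℕ) - b ^ 2 = ((k * n : ℕ) - b) * ((k * n : ℕ) + b) := by
      push_cast; ring
    rw [hDD, e] at h1
    rcases Int.Prime.dvd_mul' (p := 2) (by norm_num) h1 with h | h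
    · push_cast at h hb; omega
    · push_cast at h hb; omega
  have hmain := bilg_core hp (by omega : 0 < k) hkn (fun _ D => loc n D) σ
    (fun b D hD hDD => hPC n _ b D hs h4 h17' hD hDD) hpar (fun b D h => loc_17 n D h)
    (by simp [loc]) ?_
  · have e1 : P11 k A n = ∑ v ∈ vec1 n, ∑ w ∈ vec1 (k ^ 2 * n : ℕ), σ (ip1 v w) := rfl
    have e2 : P22 k A n = ∑ v ∈ vec2 n, ∑ w ∈ vec2 (k ^ 2 * n : ℕ), σ (ip2 v w) := rfl
    rw [e1, e2, hmain]
    obtain ⟨s1, s2⟩ := sgn_end (k := k) hs (by omega) hA hA4 hk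
    have e3 : σ (k * n : ℕ) = jacobiSym k A := by
      rw [← s1, hσdef]
      simp only
      congr 1
      push_cast
      omega
    have e4 : σ (-(k * n : ℕ)) = jacobiSym k A := by
      rw [← s2, hσdef]
      simp only
      congr 1
      push_cast
      omega
    rw [e3, e4]
    unfold AAg
    have e5 : ∑ T ∈ (range (k * n)).filter (fun T => 17 ∣ T),
        loc n (4 * (k * n - T) * T) * σ (2 * T - ((k * n : ℕ) : ℤ)) =
        ∑ T ∈ (range (k * n)).filter (fun T => 17 ∣ T),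
        sgn k A n T * loc n (4 * (k * n - T) * T) := by
      refine Finset.sum_congr rfl fun T _ => ?_
      rw [mul_comm]
      congr 1
      rw [hσdef]
      simp only
      congr 1
      push_cast
      omega
    rw [e5]
    ring
  · intro b D hD hDD
    by_cases hb : (2 : ℤ) ∣ (k * n : ℕ) - b
    · by_cases h0 : loc n D = 0
      · rw [h0, zero_mul, zero_mul]
      · congr 1
        rw [hσdef]
        simp only
        -- `b = T - S`
        have hb2 : b ^ 2 < (k * n : ℤ) ^ 2 := by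
          have : (n : ℤ) * (k ^ 2 * n : ℕ) = (k * n : ℤ) ^ 2 := by push_cast; ring
          rw [this] at hDD
          have hD' : (0 : ℤ) < D := by exact_mod_cast hD
          linarith
        have hb3 := abs_lt_of_sq_lt_sq' hb2 (by positivity)
        obtain ⟨c, hc⟩ := hb
        push_cast at hc
        have hS0 : 0 < c := by omega
        obtain ⟨S, hS⟩ : ∃ S : ℕ, (S : ℤ) = c := ⟨c.toNat, by omega⟩
        obtain ⟨T, hT⟩ : ∃ T : ℕ, (T : ℤ) = k * n - c := ⟨(k * n - c).toNat, by omega⟩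
        have hT1 : ((k : ℤ) * n + b) / 2 = (T : ℤ) := by omega
        have hS1 : ((k : ℤ) * n + -b) / 2 = (S : ℤ) := by omega
        rw [hT1, hS1]
        have hST : S + T = k * n := by
          have : (S : ℤ) + T = k * n := by omega
          exact_mod_cast this
        have hDe : D = 4 * S * T := by
          have : (D : ℤ) = 4 * S * T := by
            rw [hDD, hT, hS]
            have : b = k * n - 2 * c := by omega
            rw [this]
            push_cast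
            ring
          exact_mod_cast this
        refine sgn_sym hs (by omega) hA hA4 hk hST ?_
        intro p hp hpT
        have hpp := Nat.prime_of_mem_primeFactors hp
        have hpn : p ∣ n := (Nat.dvd_of_mem_primeFactors hp).trans hA
        rw [← hDe]
        intro h1
        apply h0
        unfold loc
        split
        · rw [mul_eq_zero]
          right
          refine Finset.prod_eq_zero (i := p) ?_ h1
          rw [Finset.mem_erase, Finset.mem_erase, Nat.mem_primeFactors]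
          refine ⟨?_, ?_, hpp, ?_, hD.ne'⟩
          · rintro rfl; exact h17' hpn
          · rintro rfl; omega
          · rw [hDe]; exact Dvd.dvd.mul_left hpT _
        · rfl
    · rw [hpar b D hb hD hDD, zero_mul, zero_mul]

theorem cm_mul {A m : ℕ} (h : Pr A m) : Cm (A * m) := by
  obtain ⟨⟨a1, a2, a3⟩, ⟨m1, m2, m3⟩, hc⟩ := h
  refine ⟨(Nat.squarefree_mul hc).2 ⟨a1, m1⟩, ?_, ?_⟩
  · rw [Nat.mul_mod, a2, m2]
  · push_cast
    rw [jacobiSym.mul_left, a3, m3]
    norm_num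

/-- **BIL1G** -/
theorem t_BIL1G (hPC : S_PC) : S_BIL1G := by
  intro A m h
  have h1 := bilg_odd hPC (cm_mul h) (dvd_mul_right A m) h.1.2.1 (Or.inl rfl)
  rw [h1]
  simp

/-- **BIL2G** -/
theorem t_BIL2G (hPC : S_PC) : S_BIL2G := by
  intro A m h
  have h1 := bilg_odd hPC (cm_mul h) (dvd_mul_right A m) h.1.2.1 (Or.inr rfl)
  rw [h1]
  norm_num

end Pool.Agent.N973.P17G
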