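import Pool.Agent.N973.P17G.Rec2

/-!
# P17G: the bilinear identities with genus characters, even discriminants
-/

set_option autoImplicit false

namespace Pool.Agent.N973.P17G

open Finset
open Pool.Agent.Z700 (hh fac)
open Pool.Agent.N969.P15 (V3 ep2 Ev tb tw psp un c2 chE)
open Pool.Agent.N972.P17
open Pool.Agent.N969.P17G
open Pool.Agent.N973.P17
open Pool.Agent.N975.ChE (ev_odd ev_mod chE_prime jac_sqfree c2_mul c2_one c2_pm)
open Pool.Agent.N975.CHB (chE_neg_one)

/-- the odd part of an even positive discriminant -/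
theorem cpe_odd {A : ℕ} (hA : CpE A) : ∃ k : ℕ, Squarefree k ∧ k % 2 = 1 ∧
    (A = 4 * k ∧ k % 4 = 3 ∨ A = 8 * k) ∧ A.primeFactors.erase 2 = k.primeFactors := by
  have hpf : ∀ (e k : ℕ), k % 2 = 1 → 0 < e → (2 ^ e * k).primeFactors.erase 2 = k.primeFactors := by
    intro e k hk he
    have hk0 : k ≠ 0 := by rintro rfl; omega
    rw [Nat.primeFactors_mul (by positivity) hk0, Nat.primeFactors_prime_pow he.ne' Nat.prime_two]
    ext p
    simp only [Finset.mem_erase, Finset.mem_union, Finset.mem_singleton]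
    constructor
    · rintro ⟨h1, h2 | h2⟩
      · exact absurd h2 h1
      · exact h2
    · intro h
      refine ⟨?_, Or.inr h⟩
      rintro rfl
      have := Nat.dvd_of_mem_primeFactors h
      omega
  obtain ⟨m, rfl, hsq, h4, -⟩ := hA
  rcases h4 with h4 | h4
  · obtain ⟨k, rfl⟩ : 2 ∣ m := by omega
    refine ⟨k, hsq.squarefree_of_dvd (Dvd.intro_left _ rfl), by omega, Or.inr (by ring), ?_⟩
    have : 4 * (2 * k) = 2 ^ 3 * k := by ring
    rw [this]
    exact hpf 3 k (by omega) (by norm_num)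
  · exact ⟨m, hsq, by omega, Or.inl ⟨rfl, h4⟩, hpf 2 m (by omega) (by norm_num)⟩

theorem jac4 (a : ℤ) : jacobiSym (4 * a) 17 = jacobiSym a 17 :=
  jac_four (by norm_num) (by norm_num) a

theorem cme_mul {A m : ℕ} (h : PrE A m) : Cme (A * m) := by
  obtain ⟨h1 | h1, hc⟩ := h
  · obtain ⟨⟨M, rfl, hM, hM4, hM17⟩, m1, m2, m3⟩ := h1
    have hc' : Nat.Coprime M m := Nat.Coprime.coprime_mul_left hc
    refine ⟨⟨M * m, by ring, (Nat.squarefree_mul hc').2 ⟨hM, m1⟩, ?_⟩, ?_⟩
    · rw [Nat.mul_mod, m2]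
      rcases hM4 with h | h <;> rw [h] <;> norm_num
    · have e : ((4 * M * m : ℕ) : ℤ) = 4 * (M * m) := by push_cast; ring
      rw [e, jac4, jacobiSym.mul_left, hM17, m3]
      norm_num
  · obtain ⟨⟨a1, a2, a3⟩, ⟨m0, rfl, s0, m4⟩, m17⟩ := h1
    have hc' : Nat.Coprime A m0 := Nat.Coprime.coprime_mul_left_right hc
    refine ⟨⟨A * m0, by ring, (Nat.squarefree_mul hc').2 ⟨a1, s0⟩, ?_⟩, ?_⟩
    · rw [Nat.mul_mod, a2]
      rcases m4 with h | h <;> rw [h] <;> norm_num
    · push_cast at m17 ⊢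
      rw [jacobiSym.mul_left, a3, m17]
      norm_num

/-- the product of the signs of `-1` -/
def kap (A n : ℕ) : ℤ := ∏ p ∈ A.primeFactors, if p = 2 then c2 n (-1) else jacobiSym (-1) p

theorem prod_two {A : ℕ} (h2 : 2 ∣ A) (hA : A ≠ 0) (f : ℕ → ℤ) (x : ℤ) :
    (∏ p ∈ A.primeFactors, if p = 2 then x else f p) = x * ∏ p ∈ A.primeFactors.erase 2, f p := by
  have h : 2 ∈ A.primeFactors := by
    rw [Nat.mem_primeFactors]
    exact ⟨Nat.prime_two, h2, hA⟩
  rw [← Finset.mul_prod_erase _ _ h, if_pos rfl]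
  congr 1
  refine Finset.prod_congr rfl fun p hp => ?_
  rw [if_neg (Finset.ne_of_mem_erase hp)]

theorem prod_odd {A : ℕ} (h2 : ¬ 2 ∣ A) (f : ℕ → ℤ) (x : ℤ) :
    (∏ p ∈ A.primeFactors, if p = 2 then x else f p) = ∏ p ∈ A.primeFactors, f p := by
  refine Finset.prod_congr rfl fun p hp => ?_
  rw [if_neg]
  rintro rfl
  exact h2 (Nat.dvd_of_mem_primeFactors hp)

theorem kap_one {A m : ℕ} (h : PrE A m) : kap A (A * m) = 1 := by
  unfold kap
  obtain ⟨h1 | h1, hc⟩ := h
  · obtain ⟨k, hsq, hk, hcase, hpf⟩ := cpe_odd h1.1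
    have hm := h1.2.2.1
    have hk4 : k % 4 = 1 ∨ k % 4 = 3 := by omega
    have hkm : (k * m) % 4 = (k % 4) * (m % 4) % 4 := Nat.mul_mod _ _ _
    have hko : Odd k := Nat.odd_iff.2 hk
    rw [prod_two (by omega) (by omega), hpf, jac_sqfree _ hsq, jacobiSym.at_neg_one hko]
    unfold c2
    rw [if_neg (by norm_num)]
    rcases hcase with ⟨hA, h3⟩ | hA
    · rw [h3, hm] at hkm
      have e : A * m = 4 * (k * m) := by rw [hA]; ring
      rw [if_pos (by omega), if_neg (by norm_num), ZMod.χ₄_nat_three_mod_four h3]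
      norm_num
    · have e : A * m = 8 * (k * m) := by rw [hA]; ring
      rw [if_neg (by omega)]
      rcases hk4 with h4 | h4
      · rw [h4, hm] at hkm
        rw [if_neg (by omega), if_pos (by norm_num), ZMod.χ₄_nat_one_mod_four h4]
        norm_num
      · rw [h4, hm] at hkm
        rw [if_pos (by omega), if_neg (by norm_num), ZMod.χ₄_nat_three_mod_four h4]
        norm_num
  · have hA := h1.1.2.1
    rw [prod_odd (by omega), ← jac_prod h1.1.1, jac_neg_one hA]

/-! ### the signs -/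

theorem sg2_nat (k n : ℕ) {T : ℕ} (hT : 0 < T) : sg2 k n (T : ℤ) = H2 n T := by
  have h0 : (T : ℤ) ≠ 0 := by exact_mod_cast hT.ne'
  unfold sg2 H2
  rw [if_neg h0, padicValInt.of_nat, ← Nat.factorization_def T Nat.prime_two]
  push_cast
  rfl

theorem H2_pm {n T : ℕ} (hT : 0 < T) : H2 n T * H2 n T = 1 := by
  unfold H2
  have h1 : ((T / 2 ^ T.factorization 2 : ℕ) : ℤ) % 2 = 1 := by
    have := Nat.not_dvd_ordCompl Nat.prime_two hT.ne'
    omega
  have h2 : t2 n * t2 n = 1 := by
    unfold t2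
    split_ifs <;> norm_num
  have h3 : c2 n ((T / 2 ^ T.factorization 2 : ℕ) : ℤ) *
      c2 n ((T / 2 ^ T.factorization 2 : ℕ) : ℤ) = 1 := by
    rcases c2_pm n h1 with h | h <;> rw [h] <;> norm_num
  calc _ = (c2 n ((T / 2 ^ T.factorization 2 : ℕ) : ℤ) *
      c2 n ((T / 2 ^ T.factorization 2 : ℕ) : ℤ)) * (t2 n * t2 n) ^ T.factorization 2 := by
        rw [mul_pow]; ring
    _ = 1 := by rw [h2, h3, one_pow, mul_one]

theorem not_sq {n p : ℕ} (hn : Ev n) (hpp : p.Prime) (hp2 : p ≠ 2) (hpn : p ∣ n) :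
    ¬ p ∣ n / p := by
  intro h6
  obtain ⟨m, hm, hs, hm4⟩ := hn
  have h7 : p * p ∣ n := by
    obtain ⟨c, hc⟩ := h6
    exact ⟨c, by rw [← Nat.mul_div_cancel' hpn, hc]; ring⟩
  have h8 : p * p ∣ m := by
    rw [hm] at h7
    refine Nat.Coprime.dvd_of_dvd_mul_left ?_ h7
    have h9 : Nat.Coprime p 4 := by
      rw [show 4 = 2 ^ 2 by norm_num]
      exact Nat.Coprime.pow_right 2 ((Nat.coprime_primes hpp Nat.prime_two).2 hp2)
    exact Nat.Coprime.mul_left h9 h9
  exact hpp.one_lt.ne' (Nat.isUnit_iff.1 (hs p h8))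

theorem not_dvd_k {k p : ℕ} (hk : k = 1 ∨ k = 2) (hpp : p.Prime) (hp2 : p ≠ 2) : ¬ p ∣ k := by
  rcases hk with rfl | rfl
  · intro h1; exact hpp.one_lt.ne' (Nat.dvd_one.1 h1)
  · intro h1; exact hp2 ((Nat.prime_dvd_prime_iff_eq hpp Nat.prime_two).1 h1)

theorem sgnE_sym {A n : ℕ} (hn : Cme n) (hA : A ∣ n) (hkap : kap A n = 1) {k S T : ℕ}
    (hk : k = 1 ∨ k = 2) (hST : S + T = k * n) (hS : 0 < S) (hT : 0 < T)
    {b : ℤ} (h : locE n b (4 * S * T) ≠ 0) : sgnE k A n S = sgnE k A n T := by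
  have h' : locE n b (4 * (S * T)) ≠ 0 := by rwa [← mul_assoc]
  unfold sgnE
  have e : ∀ p ∈ A.primeFactors, (if p = 2 then sg2 k n S else sgp k n p S) =
      (if p = 2 then c2 n (-1) else jacobiSym (-1) p) *
        (if p = 2 then sg2 k n T else sgp k n p T) := by
    intro p hp
    have hpp := Nat.prime_of_mem_primeFactors hp
    have hpn : p ∣ n := (Nat.dvd_of_mem_primeFactors hp).trans hA
    by_cases h2 : p = 2
    · rw [if_pos h2, if_pos h2, if_pos h2, sg2_nat k n hS, sg2_nat k n hT,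
        ← H2_sym hn hST hS hT h', mul_assoc, H2_pm hT, mul_one]
    · rw [if_neg h2, if_neg h2, if_neg h2]
      refine sgp_sym hpp h2 hpn (not_sq hn.1 hpp h2 hpn) (not_dvd_k hk hpp h2) hST ?_
      intro hpT
      have h17 : p ≠ 17 := by
        rintro rfl
        exact n17 hn.2 hpn
      refine (fac_ne h).2 p hpp (Dvd.dvd.mul_left hpT _) ?_ h2 h17
      exact (Nat.mul_pos (Nat.mul_pos (by norm_num) hS) hT).ne'
  rw [Finset.prod_congr rfl e, Finset.prod_mul_distrib]
  unfold kap at hkap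
  rw [hkap, one_mul]

/-! ### the ends -/

theorem H2_self {n : ℕ} (hn : Ev n) : H2 n n = 1 := by
  have hm := ev_mod hn
  have h0 : n ≠ 0 := by omega
  have h1 := HH_one hn n h0
  unfold HH at h1
  have h2 : ∏ p ∈ n.primeFactors.erase 2, Hp n p n = 1 := by
    refine Finset.prod_eq_one fun p hp => ?_
    have hp2 := Finset.ne_of_mem_erase hp
    have hpp := Nat.prime_of_mem_primeFactors (Finset.mem_of_mem_erase hp)
    have hpn := Nat.dvd_of_mem_primeFactors (Finset.mem_of_mem_erase hp)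
    have h3 := not_sq hn hpp hp2 hpn
    have h4 : n.factorization p = 1 := by
      have h5 : n = p * (n / p) := (Nat.mul_div_cancel' hpn).symm
      have h6 : n / p ≠ 0 := fun h => h3 (h ▸ dvd_zero p)
      rw [h5, Nat.factorization_mul hpp.ne_zero h6, Finsupp.add_apply, hpp.factorization_self,
        Nat.factorization_eq_zero_of_not_dvd h3]
    unfold Hp
    rw [h4, pow_one, pow_one]
    exact jac_sq_cancel hpp (by intro h5; exact h3 (by exact_mod_cast h5))
  have h3 : Hr n n = 1 := by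
    unfold Hr Finsupp.prod
    refine Finset.prod_eq_one fun l hl => ?_
    rw [Nat.support_factorization] at hl
    beta_reduce
    rw [if_pos (Nat.dvd_of_mem_primeFactors hl), one_pow]
  rw [h2, h3, mul_one, mul_one] at h1
  exact h1

/-- the sign of a vector and its multiple by `k` -/
def ek (k A n : ℕ) : ℤ := ∏ p ∈ A.primeFactors, if p = 2 then t2 n ^ (k - 1) else jacobiSym k p

theorem sgnE_end {A n k : ℕ} (hn : Cme n) (hA : A ∣ n) (hkap : kap A n = 1)
    (hk : k = 1 ∨ k = 2) : sgnE k A n (k * n : ℕ) = ek k A n ∧ sgnE k A n 0 = ek k A n := by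
  have hm := ev_mod hn.1
  have hn0 : 0 < n := by omega
  constructor
  · unfold sgnE ek
    refine Finset.prod_congr rfl fun p hp => ?_
    have hpp := Nat.prime_of_mem_primeFactors hp
    have hpn : p ∣ n := (Nat.dvd_of_mem_primeFactors hp).trans hA
    by_cases h2 : p = 2
    · rw [if_pos h2, if_pos h2]
      rcases hk with rfl | rfl
      · rw [one_mul, sg2_nat 1 n hn0, H2_self hn.1]
        norm_num
      · rw [sg2_nat 2 n (by omega), H2_mul n two_ne_zero hn0.ne', H2_self hn.1, H2_two]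
        norm_num
    · rw [if_neg h2, if_neg h2]
      have h3 := not_sq hn.1 hpp h2 hpn
      have h3' : ¬ (p : ℤ) ∣ ((n / p : ℕ) : ℤ) := by
        intro h5; exact h3 (by exact_mod_cast h5)
      have h1 : ¬ (p : ℤ) ∣ (k : ℤ) := by
        intro h5; exact not_dvd_k hk hpp h2 (by exact_mod_cast h5)
      have hpz : (p : ℤ) ≠ 0 := by exact_mod_cast hpp.ne_zero
      have e : ((k * n : ℕ) : ℤ) = p * (k * ((n / p : ℕ) : ℤ)) := by
        have h6 : k * n = p * (k * (n / p)) := by
          conv_lhs => rw [← Nat.mul_div_cancel' hpn]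
          ring
        exact_mod_cast h6
      unfold sgp
      rw [e, if_pos (dvd_mul_right _ _), Int.mul_ediv_cancel_left _ hpz, if_neg]
      · rw [mul_assoc, jacobiSym.mul_left, jacobiSym.mul_left, jac_sq_cancel hpp h3', mul_one]
      · intro h4
        rcases (Nat.prime_iff_prime_int.1 hpp).dvd_or_dvd h4 with h5 | h5
        · exact h1 h5
        · exact h3' h5
  · unfold sgnE ek
    have e : ∀ p ∈ A.primeFactors, (if p = 2 then sg2 k n 0 else sgp k n p 0) =
        (if p = 2 then c2 n (-1) else jacobiSym (-1) p) *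
          (if p = 2 then t2 n ^ (k - 1) else jacobiSym k p) := by
      intro p hp
      by_cases h2 : p = 2
      · rw [if_pos h2, if_pos h2, if_pos h2]
        unfold sg2
        rw [if_pos rfl]
      · rw [if_neg h2, if_neg h2, if_neg h2]
        unfold sgp
        rw [if_pos (dvd_zero _), Int.zero_ediv, if_pos (dvd_zero _), ← jacobiSym.mul_left,
          neg_one_mul]
    rw [Finset.prod_congr rfl e, Finset.prod_mul_distrib]
    unfold kap at hkap
    rw [hkap, one_mul]

theorem ek_one (A n : ℕ) : ek 1 A n = 1 := by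
  unfold ek
  refine Finset.prod_eq_one fun p _ => ?_
  split_ifs
  · norm_num
  · push_cast
    exact jacobiSym.one_left p

theorem ek_two {A m : ℕ} (h : PrE A m) : ek 2 A (A * m) = e2 A m := by
  have hn := cme_mul h
  unfold ek e2
  obtain ⟨h1 | h1, hc⟩ := h
  · obtain ⟨k, hsq, hk, hcase, hpf⟩ := cpe_odd h1.1
    have hm := h1.2.2.1
    have h2A : 2 ∣ A := by omega
    rw [if_pos h2A, prod_two h2A (by omega), hpf]
    push_cast
    rw [jac_sqfree _ hsq, pow_one]
    -- the product formula at `2`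
    obtain ⟨k', hsq', hk', hcase', hpf'⟩ := ev_odd hn.1
    rw [t2_eq hk' hcase']
    have hkk : k' = k * m := by
      have e0 : A * m = 4 * (k * m) ∨ A * m = 8 * (k * m) := by
        rcases hcase with ⟨hA, -⟩ | hA
        · left; rw [hA]; ring
        · right; rw [hA]; ring
      have hkm : (k * m) % 2 = 1 := by
        rw [Nat.mul_mod, hk]
        omega
      rcases e0 with e0 | e0 <;> rcases hcase' with ⟨h5, -⟩ | h5 <;> omega
    have hk0 : k ≠ 0 := by rintro rfl; omega
    have hm0 : m ≠ 0 := by rintro rfl; omega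
    rw [hkk, jacobiSym.mul_right' _ hk0 hm0]
    have h3 : jacobiSym 2 k * jacobiSym 2 k = 1 := by
      rw [← jacobiSym.mul_left, show ((2 : ℤ) * 2) = 2 ^ 2 by norm_num]
      refine jacobiSym.sq_one' ?_
      rw [show (2 : ℤ).gcd (k : ℤ) = Nat.gcd 2 k from rfl]
      exact Nat.coprime_two_left.2 (Nat.odd_iff.2 hk)
    have h4 : jacobiSym 2 m = ep2 m := by
      rw [jacobiSym.at_two (Nat.odd_iff.2 (by omega)), ZMod.χ₈_nat_eq_if_mod_eight]
      unfold ep2
      rw [if_neg (by omega)]
      by_cases h5 : m % 8 = 7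
      · rw [if_pos (Or.inr h5), if_pos h5]
      · rw [if_neg (by omega), if_neg h5]
    rw [h4]
    linear_combination ep2 m * h3
  · have hA := h1.1.2.1
    rw [if_neg (by omega), prod_odd (by omega)]
    push_cast
    rw [← jac_prod h1.1.1]

/-- the even case for both values of `k` -/
theorem bilg_even (hPC : S_PCE) {A n k : ℕ} (hn : Cme n) (hA : A ∣ n) (hkap : kap A n = 1)
    (hk : k = 1 ∨ k = 2) :
    3 * P11E k A n + P22E k A n = 12 * AAgE k A n + 2 * (ek k A n * rr n) := by
  obtain ⟨hev, h17⟩ := id hn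
  have hm := ev_mod hev
  have hp : 0 < n := by omega
  have h17' := n17 h17
  set σ : ℤ → ℤ := fun b => sgnE k A n ((k * n + b) / 2) with hσdef
  have hkn : ¬ 17 ∣ k * n := by
    rcases hk with rfl | rfl
    · rwa [one_mul]
    · rw [Nat.Prime.dvd_mul (by norm_num)]
      rintro (h | h)
      · omega
      · exact h17' h
  have h2n : (2 : ℤ) ∣ (k * n : ℕ) := ⟨(k * (n / 2) : ℕ), by
    have : k * n = 2 * (k * (n / 2)) := by
      have h3 : n = 2 * (n / 2) := by omega
      conv_lhs => rw [h3]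
      ring
    exact_mod_cast this⟩
  have hpar : ∀ (b : ℤ) (D : ℕ), ¬ (2 : ℤ) ∣ (k * n : ℕ) - b → 0 < D →
      (D : ℤ) = n * (k ^ 2 * n : ℕ) - b ^ 2 → locE n b D = 0 := by
    intro b D hb _ _
    refine locE_odd _ b D ?_
    intro h
    exact hb (dvd_sub h2n h)
  have hmain := bilg_core hp (by omega : 0 < k) hkn (locE n) σ
    (fun b D hD hDD => hPC n _ b D hev h17 (by
      have : 4 ∣ n := by omega
      exact Dvd.dvd.mul_left this _) hD hDD) hpar (fun b D h => locE_17 n b D h)
    (by simp [locE]) ?_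
  · have e1 : P11E k A n = ∑ v ∈ vec1 n, ∑ w ∈ vec1 (k ^ 2 * n : ℕ), σ (ip1 v w) := rfl
    have e2 : P22E k A n = ∑ v ∈ vec2 n, ∑ w ∈ vec2 (k ^ 2 * n : ℕ), σ (ip2 v w) := rfl
    rw [e1, e2, hmain]
    obtain ⟨s1, s2⟩ := sgnE_end hn hA hkap hk
    have e3 : σ (k * n : ℕ) = ek k A n := by
      rw [← s1, hσdef]
      simp only
      congr 1
      push_cast
      omega
    have e4 : σ (-(k * n : ℕ)) = ek k A n := by
      rw [← s2, hσdef]
      simp only
      congr 1
      push_cast
      omega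
    rw [e3, e4]
    unfold AAgE
    have e5 : ∑ T ∈ (range (k * n)).filter (fun T => 17 ∣ T),
        locE n (2 * T - ((k * n : ℕ) : ℤ)) (4 * (k * n - T) * T) *
          σ (2 * T - ((k * n : ℕ) : ℤ)) =
        ∑ T ∈ (range (k * n)).filter (fun T => 17 ∣ T),
        sgnE k A n T * locE n (2 * T - k * n) (4 * (k * n - T) * T) := by
      refine Finset.sum_congr rfl fun T _ => ?_
      rw [mul_comm]
      have e6 : σ (2 * T - ((k * n : ℕ) : ℤ)) = sgnE k A n T := by
        rw [hσdef]
        simp only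
        congr 1
        push_cast
        omega
      rw [e6]
      push_cast
      rfl
    rw [e5]
    ring
  · intro b D hD hDD
    by_cases hb : (2 : ℤ) ∣ (k * n : ℕ) - b
    · by_cases h0 : locE n b D = 0
      · rw [h0, zero_mul, zero_mul]
      · congr 1
        rw [hσdef]
        simp only
        -- `b = T - S`
        have hb2 : b ^ 2 < (k * n : ℤ) ^ 2 := by
          have : (n : ℤ) * (k ^ 2 * n : ℕ) = (k * n : ℤ) ^ 2 := by push_cast; ring
          rw [this] at hDD
          have hD' : (0 : ℤ) < D := by exact_mod_cast hD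
          linarith
        have hb3 := abs_lt_of_sq_lt_sq' hb2 (by positivity)
        obtain ⟨c, hc⟩ := hb
        push_cast at hc
        have hS0 : 0 < c := by omega
        obtain ⟨S, hS⟩ : ∃ S : ℕ, (S : ℤ) = c := ⟨c.toNat, by omega⟩
        obtain ⟨T, hT⟩ : ∃ T : ℕ, (T : ℤ) = k * n - c := ⟨(k * n - c).toNat, by omega⟩
        have hT1 : ((k : ℤ) * n + b) / 2 = (T : ℤ) := by omega
        have hS1 : ((k : ℤ) * n + -b) / 2 = (S : ℤ) := by omega
        rw [hT1, hS1]
        have hST : S + T = k * n := by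
          have : (S : ℤ) + T = k * n := by omega
          exact_mod_cast this
        have hDe : D = 4 * S * T := by
          have : (D : ℤ) = 4 * S * T := by
            rw [hDD, hT, hS]
            have : b = k * n - 2 * c := by omega
            rw [this]
            push_cast
            ring
          exact_mod_cast this
        rw [hDe] at h0
        exact sgnE_sym hn hA hkap hk hST (by omega) (by omega) h0
    · rw [hpar b D hb hD hDD, zero_mul, zero_mul]

/-- **BIL1GE** -/
theorem t_BIL1GE (hPC : S_PCE) : S_BIL1GE := by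
  intro A m h
  rw [bilg_even hPC (cme_mul h) (dvd_mul_right A m) (kap_one h) (Or.inl rfl), ek_one, one_mul]

/-- **BIL2GE** -/
theorem t_BIL2GE (hPC : S_PCE) : S_BIL2GE := by
  intro A m h
  rw [bilg_even hPC (cme_mul h) (dvd_mul_right A m) (kap_one h) (Or.inr rfl), ek_two h]

end Pool.Agent.N973.P17G
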