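import Pool.Agent.N969.P17G.Defs2
import Pool.Agent.N975.CHB
import Pool.Agent.N973.P17G.BIL

/-!
# P17G: the product formula for the signs at a discriminant divisible by `4`
-/

set_option autoImplicit false

namespace Pool.Agent.N973.P17G

open Finset
open Pool.Agent.Z700 (hh fac)
open Pool.Agent.N969.P15 (V3 ep2 Ev tb tw psp un c2 chE)
open Pool.Agent.N972.P17
open Pool.Agent.N969.P17G
open Pool.Agent.N975.ChE (ev_odd ev_mod chE_prime jac_sqfree c2_mul c2_one c2_pm)
open Pool.Agent.N975.CHB (chE_neg_one)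

/-! ### the local symbols -/

/-- the symbol at `2` -/
def H2 (n T : ℕ) : ℤ := c2 n ((T / 2 ^ T.factorization 2 : ℕ) : ℤ) * t2 n ^ T.factorization 2

/-- the symbol at an odd prime dividing `n` -/
def Hp (n p T : ℕ) : ℤ :=
  jacobiSym ((T / p ^ T.factorization p : ℕ) : ℤ) p * jacobiSym ((n / p : ℕ) : ℤ) p ^ T.factorization p

/-- the symbols at the primes not dividing `n` -/
def Hr (n T : ℕ) : ℤ :=
  T.factorization.prod fun l k => (if l ∣ n then 1 else jacobiSym (-((n / 4 : ℕ) : ℤ)) l) ^ k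

theorem H2_mul (n : ℕ) {S T : ℕ} (hS : S ≠ 0) (hT : T ≠ 0) : H2 n (S * T) = H2 n S * H2 n T := by
  unfold H2
  rw [Nat.ordCompl_mul, Nat.factorization_mul hS hT, Finsupp.add_apply, pow_add]
  push_cast
  rw [c2_mul]
  ring

theorem Hp_mul (n p : ℕ) {S T : ℕ} (hS : S ≠ 0) (hT : T ≠ 0) :
    Hp n p (S * T) = Hp n p S * Hp n p T := by
  unfold Hp
  rw [Nat.ordCompl_mul, Nat.factorization_mul hS hT, Finsupp.add_apply, pow_add]
  push_cast
  rw [jacobiSym.mul_left]
  ring

theorem Hr_mul (n : ℕ) {S T : ℕ} (hS : S ≠ 0) (hT : T ≠ 0) : Hr n (S * T) = Hr n S * Hr n T := by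
  unfold Hr
  rw [Nat.factorization_mul hS hT, Finsupp.prod_add_index']
  · intro a
    exact pow_zero _
  · intro a b c
    exact pow_add _ _ _

/-- the product of all symbols -/
def HH (n T : ℕ) : ℤ := H2 n T * (∏ p ∈ n.primeFactors.erase 2, Hp n p T) * Hr n T

theorem HH_mul (n : ℕ) {S T : ℕ} (hS : S ≠ 0) (hT : T ≠ 0) : HH n (S * T) = HH n S * HH n T := by
  unfold HH
  rw [H2_mul n hS hT, Hr_mul n hS hT, Finset.prod_congr rfl fun p _ => Hp_mul n p hS hT,
    Finset.prod_mul_distrib]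
  ring

theorem Hr_prime (n : ℕ) {l : ℕ} (hl : l.Prime) :
    Hr n l = if l ∣ n then 1 else jacobiSym (-((n / 4 : ℕ) : ℤ)) l := by
  unfold Hr
  rw [hl.factorization, Finsupp.prod_single_index]
  · exact pow_one _
  · exact pow_zero _

theorem H2_two (n : ℕ) : H2 n 2 = t2 n := by
  unfold H2
  rw [Nat.prime_two.factorization_self, pow_one, pow_one]
  norm_num
  rw [c2_one, one_mul]

theorem H2_odd (n : ℕ) {T : ℕ} (hT : T % 2 = 1) : H2 n T = c2 n T := by
  unfold H2
  rw [Nat.factorization_eq_zero_of_not_dvd (by omega), pow_zero, pow_zero, Nat.div_one, mul_one]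

theorem Hp_cop (n : ℕ) {p T : ℕ} (h : ¬ p ∣ T) : Hp n p T = jacobiSym T p := by
  unfold Hp
  rw [Nat.factorization_eq_zero_of_not_dvd h, pow_zero, pow_zero, Nat.div_one, mul_one]

theorem Hp_self (n : ℕ) {p : ℕ} (hp : p.Prime) : Hp n p p = jacobiSym ((n / p : ℕ) : ℤ) p := by
  unfold Hp
  rw [hp.factorization_self, pow_one, pow_one, Nat.div_self hp.pos]
  push_cast
  rw [jacobiSym.one_left, one_mul]

theorem t2_eq {n k : ℕ} (hk : k % 2 = 1) (h : n = 4 * k ∧ k % 4 = 1 ∨ n = 8 * k) :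
    t2 n = jacobiSym 2 k := by
  rw [jacobiSym.at_two (Nat.odd_iff.2 hk), ZMod.χ₈_nat_eq_if_mod_eight]
  unfold t2
  rw [if_neg (by omega : ¬ k % 2 = 0)]
  rcases h with ⟨rfl, h1⟩ | rfl
  · rw [if_pos (by omega)]
    congr 1
    simp only [eq_iff_iff]
    omega
  · rw [if_neg (by omega), Nat.mul_div_cancel_left _ (by norm_num : 0 < 8)]

/-- the prime `2` -/
theorem HH_two {n : ℕ} (hE : Ev n) : HH n 2 = 1 := by
  obtain ⟨k, hsq, hk, hcase, hpf⟩ := ev_odd hE
  unfold HH
  rw [H2_two, Hr_prime n Nat.prime_two, if_pos (by omega), mul_one, t2_eq hk hcase, hpf]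
  have h1 : ∏ p ∈ k.primeFactors, Hp n p 2 = jacobiSym 2 k := by
    rw [← jac_sqfree _ hsq]
    refine Finset.prod_congr rfl fun p hp => ?_
    have hpp := Nat.prime_of_mem_primeFactors hp
    have hpk := Nat.dvd_of_mem_primeFactors hp
    rw [Hp_cop n (fun h => ?_)]
    · push_cast; rfl
    · have := (Nat.prime_dvd_prime_iff_eq hpp Nat.prime_two).1 h
      subst this
      omega
  rw [h1, ← jacobiSym.mul_left]
  have h2 : ((2 : ℤ) * 2) = 2 ^ 2 := by norm_num
  rw [h2]
  refine jacobiSym.sq_one' ?_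
  rw [show (2 : ℤ).gcd (k : ℤ) = Nat.gcd 2 k from rfl]
  exact Nat.coprime_two_left.2 (Nat.odd_iff.2 hk)

/-- a prime not dividing `n` -/
theorem HH_cop {n : ℕ} (hE : Ev n) {l : ℕ} (hl : l.Prime) (h : ¬ l ∣ n) : HH n l = 1 := by
  have hm := ev_mod hE
  have hl2 : l ≠ 2 := by rintro rfl; omega
  have hlo : l % 2 = 1 := hl.eq_two_or_odd.resolve_left hl2
  unfold HH
  rw [H2_odd n hlo, Hr_prime n hl, if_neg h, ← chE_prime hE hl hl2]
  have h1 : ∏ p ∈ n.primeFactors.erase 2, Hp n p l =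
      ∏ p ∈ n.primeFactors.erase 2, jacobiSym l p := by
    refine Finset.prod_congr rfl fun p hp => ?_
    have hpp := Nat.prime_of_mem_primeFactors (Finset.mem_of_mem_erase hp)
    have hpn := Nat.dvd_of_mem_primeFactors (Finset.mem_of_mem_erase hp)
    refine Hp_cop n fun h2 => h ?_
    rw [← (Nat.prime_dvd_prime_iff_eq hpp hl).1 h2]
    exact hpn
  rw [h1]
  have h2 : chE n l * chE n l = 1 := by
    rw [← Pool.Agent.N975.ChE.chE_mul]
    rcases Pool.Agent.N975.ChE.chE_pm hm ((Nat.Prime.coprime_iff_not_dvd hl).2 h) with h3 | h3 <;>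
      rw [Pool.Agent.N975.ChE.chE_mul, h3] <;> norm_num
  exact h2

/-- an odd prime dividing `n` -/
theorem HH_dvd {n : ℕ} (hE : Ev n) {q : ℕ} (hq : q.Prime) (hq2 : q ≠ 2) (h : q ∣ n) :
    HH n q = 1 := by
  have hm := ev_mod hE
  have hqo : q % 2 = 1 := hq.eq_two_or_odd.resolve_left hq2
  obtain ⟨k, hsq, hk, hcase, hpf⟩ := ev_odd hE
  have hqk : q ∣ k := by
    have h1 : q ∈ n.primeFactors.erase 2 := by
      rw [Finset.mem_erase, Nat.mem_primeFactors]
      exact ⟨hq2, hq, h, by omega⟩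
    rw [hpf] at h1
    exact Nat.dvd_of_mem_primeFactors h1
  obtain ⟨r, rfl⟩ := hqk
  have hr : r % 2 = 1 := by
    rcases Nat.even_or_odd r with h1 | h1
    · exfalso
      have := h1.mul_left q
      rw [Nat.even_iff] at this
      omega
    · exact Nat.odd_iff.1 h1
  have hcop : Nat.Coprime q r := Nat.coprime_of_squarefree_mul hsq
  have hqr : ¬ q ∣ r := (Nat.Prime.coprime_iff_not_dvd hq).1 hcop
  have hrs : Squarefree r := hsq.squarefree_of_dvd (Dvd.intro_left _ rfl)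
  have hr0 : r ≠ 0 := by rintro rfl; omega
  unfold HH
  rw [H2_odd n hqo, Hr_prime n hq, if_pos h, mul_one, hpf]
  have h1 : (q * r).primeFactors = insert q r.primeFactors := by
    rw [Nat.primeFactors_mul hq.ne_zero hr0, hq.primeFactors]
    rfl
  have h2 : q ∉ r.primeFactors := fun h => hqr (Nat.dvd_of_mem_primeFactors h)
  rw [h1, Finset.prod_insert h2, Hp_self n hq]
  have h3 : ∏ p ∈ r.primeFactors, Hp n p q = jacobiSym q r := by
    rw [← jac_sqfree _ hrs]
    refine Finset.prod_congr rfl fun p hp => ?_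
    have hpp := Nat.prime_of_mem_primeFactors hp
    have hpr := Nat.dvd_of_mem_primeFactors hp
    rw [Hp_cop n (fun h => ?_)]
    exact hqr ((Nat.prime_dvd_prime_iff_eq hpp hq).1 h ▸ hpr)
  rw [h3]
  have h2q : jacobiSym 2 q * jacobiSym 2 q = 1 := by
    refine jac_sq_cancel hq fun h5 => ?_
    have h6 : q ∣ 2 := by exact_mod_cast h5
    exact hq2 ((Nat.prime_dvd_prime_iff_eq hq Nat.prime_two).1 h6)
  have hj : jacobiSym (r : ℤ) q * jacobiSym (q : ℤ) r =
      if q % 4 = 3 ∧ r % 4 = 3 then -1 else 1 := by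
    have hJ : jacobiSym (r : ℤ) q * jacobiSym (r : ℤ) q = 1 := by
      refine jac_sq_cancel hq fun h5 => hqr (by exact_mod_cast h5)
    rcases (by omega : q % 4 = 1 ∨ q % 4 = 3) with h5 | h5
    · rw [if_neg (by omega), jacobiSym.quadratic_reciprocity_one_mod_four h5 (Nat.odd_iff.2 hr), hJ]
    · rcases (by omega : r % 4 = 1 ∨ r % 4 = 3) with h6 | h6
      · rw [if_neg (by omega),
          ← jacobiSym.quadratic_reciprocity_one_mod_four h6 (Nat.odd_iff.2 hqo), hJ]
      · rw [if_pos ⟨h5, h6⟩, jacobiSym.quadratic_reciprocity_three_mod_four h5 h6]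
        rw [mul_neg, hJ]
  have hqr4 : (q * r) % 4 = (q % 4) * (r % 4) % 4 := Nat.mul_mod _ _ _
  have hq8 : q % 8 = 1 ∨ q % 8 = 3 ∨ q % 8 = 5 ∨ q % 8 = 7 := by omega
  have hr4 : r % 4 = 1 ∨ r % 4 = 3 := by omega
  have h2q' : jacobiSym 2 q = if q % 8 = 1 ∨ q % 8 = 7 then 1 else -1 := by
    rw [jacobiSym.at_two (Nat.odd_iff.2 hqo), ZMod.χ₈_nat_eq_if_mod_eight,
      if_neg (by omega : ¬ q % 2 = 0)]
  rcases hcase with ⟨hn, h4⟩ | hn
  · have e1 : n / q = 4 * r := by
      rw [hn, show 4 * (q * r) = q * (4 * r) by ring, Nat.mul_div_cancel_left _ hq.pos]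
    have e2 : jacobiSym ((4 * r : ℕ) : ℤ) q = jacobiSym (r : ℤ) q := by
      push_cast
      rw [show (4 : ℤ) * r = 2 * (2 * r) by ring, jacobiSym.mul_left, jacobiSym.mul_left,
        ← mul_assoc, h2q, one_mul]
    rw [e1, e2, hj]
    unfold c2
    rw [if_neg (by omega), if_pos (by omega)]
    rcases hr4 with h6 | h6 <;> rw [h6] at hqr4 ⊢ <;>
      rcases (by omega : q % 4 = 1 ∨ q % 4 = 3) with h7 | h7 <;> rw [h7] at hqr4 ⊢ <;>
      simp <;> omega
  · have e1 : n / q = 8 * r := by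
      rw [hn, show 8 * (q * r) = q * (8 * r) by ring, Nat.mul_div_cancel_left _ hq.pos]
    have e2 : jacobiSym ((8 * r : ℕ) : ℤ) q = jacobiSym 2 q * jacobiSym (r : ℤ) q := by
      push_cast
      rw [show (8 : ℤ) * r = 2 * (2 * (2 * r)) by ring, jacobiSym.mul_left, jacobiSym.mul_left,
        jacobiSym.mul_left]
      linear_combination (jacobiSym 2 q * jacobiSym (r : ℤ) q) * h2q
    rw [e1, e2, mul_assoc (jacobiSym 2 q), hj, h2q']
    unfold c2
    rw [if_neg (by omega), if_neg (by omega)]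
    rcases hr4 with h6 | h6 <;> rcases hq8 with h7 | h7 | h7 | h7 <;>
      (have h8 : q % 4 = (q % 8) % 4 := by omega
       rw [h7] at h8
       rw [h8, h6] at hqr4
       norm_num at hqr4
       split_ifs <;> omega)

/-- **the product formula** -/
theorem HH_one {n : ℕ} (hE : Ev n) (T : ℕ) (hT : T ≠ 0) : HH n T = 1 := by
  induction T using Nat.recOnMul with
  | zero => exact absurd rfl hT
  | one =>
    have h1 := HH_mul n (one_ne_zero) (one_ne_zero)
    unfold HH H2 Hr Hp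
    simp [c2_one]
  | prime p hp =>
    by_cases h2 : p = 2
    · subst h2
      exact HH_two hE
    · by_cases h3 : p ∣ n
      · exact HH_dvd hE hp h2 h3
      · exact HH_cop hE hp h3
  | mul a b iha ihb =>
    have ha : a ≠ 0 := left_ne_zero_of_mul hT
    have hb : b ≠ 0 := right_ne_zero_of_mul hT
    rw [HH_mul n ha hb, iha ha, ihb hb, one_mul]

end Pool.Agent.N973.P17G
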