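import Pool.Agent.N973.P17G.Rec

/-!
# P17G: the symmetry of the signs at `2`
-/

set_option autoImplicit false

namespace Pool.Agent.N973.P17G

open Finset
open Pool.Agent.Z700 (hh fac)
open Pool.Agent.N969.P15 (V3 ep2 Ev tb tw psp un c2 chE)
open Pool.Agent.N972.P17
open Pool.Agent.N969.P17G
open Pool.Agent.N973.P17
open Pool.Agent.N975.ChE (ev_odd ev_mod chE_prime jac_sqfree c2_mul c2_one c2_pm)
open Pool.Agent.N975.CHB (chE_neg_one)

theorem fact_four {l E : ℕ} (hl : l.Prime) (hl2 : l ≠ 2) (hE : E ≠ 0) :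
    (4 * E).factorization l = E.factorization l := by
  rw [Nat.factorization_mul (by norm_num) hE, Finsupp.add_apply]
  have : (4 : ℕ).factorization l = 0 := by
    refine Nat.factorization_eq_zero_of_not_dvd fun h => hl2 ?_
    have h1 : l ∣ 2 ^ 2 := by norm_num; exact h
    exact (Nat.prime_dvd_prime_iff_eq hl Nat.prime_two).1 (hl.dvd_of_dvd_pow h1)
  rw [this, zero_add]

theorem jac_four {l : ℕ} (hl : l.Prime) (hl2 : l ≠ 2) (a : ℤ) :
    jacobiSym (4 * a) l = jacobiSym a l := by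
  have h2q : jacobiSym 2 l * jacobiSym 2 l = 1 := by
    refine jac_sq_cancel hl fun h5 => ?_
    have h6 : l ∣ 2 := by exact_mod_cast h5
    exact hl2 ((Nat.prime_dvd_prime_iff_eq hl Nat.prime_two).1 h6)
  rw [show (4 : ℤ) * a = 2 * (2 * a) by ring, jacobiSym.mul_left, jacobiSym.mul_left, ← mul_assoc,
    h2q, one_mul]

/-- the factors of the local densities -/
theorem fac_ne {n : ℕ} {b : ℤ} {D : ℕ} (h : locE n b D ≠ 0) :
    Odd (D.factorization 17) ∧ ∀ l : ℕ, l.Prime → l ∣ D → D ≠ 0 → l ≠ 2 → l ≠ 17 →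
      fac n D l ≠ 0 := by
  unfold locE at h
  split_ifs at h with h17
  · refine ⟨h17, fun l hl hlD hD h2 h3 h0 => h ?_⟩
    rw [mul_eq_zero]
    right
    refine Finset.prod_eq_zero (i := l) ?_ h0
    rw [Finset.mem_erase, Finset.mem_erase, Nat.mem_primeFactors]
    exact ⟨h3, h2, hl, hlD, hD⟩
  · exact absurd rfl h

/-- the primes not dividing `n` -/
theorem Hr_neg {n : ℕ} (hn : Cme n) {E : ℕ} (hE0 : E ≠ 0) {b : ℤ} (h : locE n b (4 * E) ≠ 0) :
    Hr n E = -1 := by
  obtain ⟨hev, hn17⟩ := hn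
  have hm := ev_mod hev
  obtain ⟨h17, hf⟩ := fac_ne h
  have hp17 : Nat.Prime 17 := by norm_num
  rw [fact_four hp17 (by norm_num) hE0] at h17
  have hn4 : (n : ℤ) = 4 * ((n / 4 : ℕ) : ℤ) := by omega
  have h17n : ¬ 17 ∣ n := n17 hn17
  have hj17 : jacobiSym (-((n / 4 : ℕ) : ℤ)) 17 = -1 := by
    have h1 : jacobiSym (n : ℤ) 17 = jacobiSym ((n / 4 : ℕ) : ℤ) 17 := by
      rw [hn4]
      exact jac_four hp17 (by norm_num) _
    have h2 : jacobiSym (-((n / 4 : ℕ) : ℤ)) 17 = jacobiSym ((n / 4 : ℕ) : ℤ) 17 := by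
      rw [show -((n / 4 : ℕ) : ℤ) = -1 * ((n / 4 : ℕ) : ℤ) by ring, jacobiSym.mul_left]
      have : jacobiSym (-1) 17 = 1 := by norm_num
      rw [this, one_mul]
    rw [h2, ← h1, hn17]
  unfold Hr Finsupp.prod
  rw [Nat.support_factorization, Finset.prod_eq_single 17]
  · beta_reduce
    rw [if_neg h17n, hj17]
    exact Odd.neg_one_pow h17
  · intro l hl hl17
    have hlp := Nat.prime_of_mem_primeFactors hl
    have hlE := Nat.dvd_of_mem_primeFactors hl
    beta_reduce
    by_cases hln : l ∣ n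
    · rw [if_pos hln, one_pow]
    · rw [if_neg hln]
      have hl2 : l ≠ 2 := by rintro rfl; omega
      have h1 := hf l hlp (Dvd.dvd.mul_left hlE 4) (by omega) hl2 hl17
      unfold fac at h1
      rw [if_neg hln, fact_four hlp hl2 hE0] at h1
      have h2 : jacobiSym (-(n : ℤ)) l = jacobiSym (-((n / 4 : ℕ) : ℤ)) l := by
        rw [hn4, ← mul_neg]
        exact jac_four hlp hl2 _
      rw [h2] at h1
      have h3 : ¬ (l : ℤ) ∣ -((n / 4 : ℕ) : ℤ) := by
        rw [dvd_neg]
        intro h4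
        apply hln
        have h5 : l ∣ n / 4 := by exact_mod_cast h4
        exact h5.trans ⟨4, by omega⟩
      rcases jac_unit hlp h3 with h4 | h4
      · rw [h4, one_pow]
      · rw [h4] at h1 ⊢
        rcases Nat.even_or_odd (E.factorization l) with h5 | h5
        · exact Even.neg_one_pow h5
        · exfalso
          apply h1
          rw [neg_one_geom_sum, if_pos]
          exact Odd.add_one h5
  · intro h1
    exfalso
    have h2 : E.factorization 17 = 0 := by
      rw [← Finsupp.notMem_support_iff, Nat.support_factorization]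
      exact h1
    rw [h2] at h17
    exact absurd h17 (by decide)

/-- the odd primes dividing `n` -/
theorem Hp_neg {n : ℕ} (hn : Cme n) {k S T : ℕ} (hST : S + T = k * n) (hS : 0 < S) (hT : 0 < T)
    {b : ℤ} (h : locE n b (4 * (S * T)) ≠ 0) {p : ℕ} (hp : p ∈ n.primeFactors.erase 2) :
    Hp n p (S * T) = jacobiSym (-1) p := by
  obtain ⟨hp2, hp⟩ := Finset.mem_erase.1 hp
  have hpp := Nat.prime_of_mem_primeFactors hp
  have hpn := Nat.dvd_of_mem_primeFactors hp
  have hE0 : S * T ≠ 0 := (Nat.mul_pos hS hT).ne'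
  have hp17 : p ≠ 17 := by
    rintro rfl
    exact n17 hn.2 hpn
  obtain ⟨-, hf⟩ := fac_ne h
  have hp1 : ¬ (p : ℤ) ∣ 1 := by
    intro h1
    have h2 : p ∣ 1 := by exact_mod_cast h1
    exact hpp.one_lt.ne' (Nat.dvd_one.1 h2)
  have hm1 : jacobiSym (-1) p * jacobiSym (-1) p = 1 :=
    jac_sq_cancel hpp (by rw [dvd_neg]; exact hp1)
  have hEc : ¬ p ∣ S * T / p ^ (S * T).factorization p := Nat.not_dvd_ordCompl hpp hE0
  have hEz : ¬ (p : ℤ) ∣ ((S * T / p ^ (S * T).factorization p : ℕ) : ℤ) := by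
    intro h1; exact hEc (by exact_mod_cast h1)
  have hE1 := jac_sq_cancel hpp hEz
  by_cases hpE : p ∣ S * T
  · have h1 := hf p hpp (Dvd.dvd.mul_left hpE 4) (by omega) hp2 hp17
    unfold fac at h1
    rw [if_pos hpn] at h1
    have e1 : 4 * (S * T) / p ^ (4 * (S * T)).factorization p =
        4 * (S * T / p ^ (S * T).factorization p) := by
      rw [fact_four hpp hp2 hE0]
      exact Nat.mul_div_assoc _ (Nat.ordProj_dvd _ _)
    unfold hh at h1
    rw [e1, fact_four hpp hp2 hE0] at h1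
    unfold Hp
    split_ifs at h1 with hev
    · have e2 : jacobiSym (-((4 * (S * T / p ^ (S * T).factorization p) : ℕ) : ℤ)) p =
          jacobiSym (-1) p * jacobiSym ((S * T / p ^ (S * T).factorization p : ℕ) : ℤ) p := by
        rw [← jacobiSym.mul_left, neg_one_mul, Nat.cast_mul, ← mul_neg]
        exact jac_four hpp hp2 _
      rw [e2] at h1
      obtain ⟨j, hj⟩ := hev
      have hnp : ¬ (p : ℤ) ∣ ((n / p : ℕ) : ℤ) ∨ (p : ℤ) ∣ ((n / p : ℕ) : ℤ) := by tauto
      have e3 : jacobiSym ((n / p : ℕ) : ℤ) p ^ (S * T).factorization p =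
          (jacobiSym ((n / p : ℕ) : ℤ) p * jacobiSym ((n / p : ℕ) : ℤ) p) ^ j := by
        rw [hj, ← two_mul, pow_mul, pow_two]
      have hnp2 : ¬ (p : ℤ) ∣ ((n / p : ℕ) : ℤ) := by
        intro h5
        have h6 : p ∣ n / p := by exact_mod_cast h5
        obtain ⟨m, hm, hs, hm4⟩ := hn.1
        have h7 : p * p ∣ n := by
          obtain ⟨c, hc⟩ := h6
          exact ⟨c, by rw [← Nat.mul_div_cancel' hpn, hc]; ring⟩
        have h8 : p * p ∣ m := by
          rw [hm] at h7
          refine Nat.Coprime.dvd_of_dvd_mul_left ?_ h7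
          have h9 : Nat.Coprime p 4 := by
            rw [show 4 = 2 ^ 2 by norm_num]
            exact Nat.Coprime.pow_right 2 ((Nat.coprime_primes hpp Nat.prime_two).2 hp2)
          exact Nat.Coprime.mul_left h9 h9
        exact hpp.one_lt.ne' (Nat.isUnit_iff.1 (hs p h8))
      rw [e3, jac_sq_cancel hpp hnp2, one_pow, mul_one]
      rcases jac_unit hpp hEz with h4 | h4 <;>
        rcases jac_unit hpp (by rw [dvd_neg]; exact hp1 : ¬ (p : ℤ) ∣ -1) with h5 | h5 <;>
        rw [h4, h5] at h1 <;> rw [h4, h5] <;> norm_num at h1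
    · have hodd : Odd ((S * T).factorization p) := Nat.not_even_iff_odd.1 hev
      have e2 : jacobiSym (-((n / p * (4 * (S * T / p ^ (S * T).factorization p)) : ℕ) : ℤ)) p =
          jacobiSym (-1) p * (jacobiSym ((n / p : ℕ) : ℤ) p *
          jacobiSym ((S * T / p ^ (S * T).factorization p : ℕ) : ℤ) p) := by
        rw [← jacobiSym.mul_left, ← jacobiSym.mul_left, neg_one_mul, Nat.cast_mul, Nat.cast_mul]
        have : -(((n / p : ℕ) : ℤ) * (((4 : ℕ) : ℤ) *
            ((S * T / p ^ (S * T).factorization p : ℕ) : ℤ))) =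
            4 * -(((n / p : ℕ) : ℤ) * ((S * T / p ^ (S * T).factorization p : ℕ) : ℤ)) := by
          push_cast; ring
        rw [this]
        exact jac_four hpp hp2 _
      rw [e2] at h1
      obtain ⟨j, hj⟩ := hodd
      have hnp2 : ¬ (p : ℤ) ∣ ((n / p : ℕ) : ℤ) := by
        intro h5
        have h6 : p ∣ n / p := by exact_mod_cast h5
        obtain ⟨m, hm, hs, hm4⟩ := hn.1
        have h7 : p * p ∣ n := by
          obtain ⟨c, hc⟩ := h6
          exact ⟨c, by rw [← Nat.mul_div_cancel' hpn, hc]; ring⟩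
        have h8 : p * p ∣ m := by
          rw [hm] at h7
          refine Nat.Coprime.dvd_of_dvd_mul_left ?_ h7
          have h9 : Nat.Coprime p 4 := by
            rw [show 4 = 2 ^ 2 by norm_num]
            exact Nat.Coprime.pow_right 2 ((Nat.coprime_primes hpp Nat.prime_two).2 hp2)
          exact Nat.Coprime.mul_left h9 h9
        exact hpp.one_lt.ne' (Nat.isUnit_iff.1 (hs p h8))
      have e3 : jacobiSym ((n / p : ℕ) : ℤ) p ^ (S * T).factorization p =
          jacobiSym ((n / p : ℕ) : ℤ) p := by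
        rw [hj, pow_succ, pow_mul, pow_two, jac_sq_cancel hpp hnp2, one_pow, one_mul]
      rw [e3]
      rcases jac_unit hpp hEz with h4 | h4 <;>
        rcases jac_unit hpp (by rw [dvd_neg]; exact hp1 : ¬ (p : ℤ) ∣ -1) with h5 | h5 <;>
        rcases jac_unit hpp hnp2 with h6 | h6 <;>
        rw [h4, h5, h6] at h1 <;> rw [h4, h5, h6] <;> revert h1 <;> norm_num
  · rw [Hp_cop n hpE]
    have hS' : ¬ p ∣ S := fun h => hpE (Dvd.dvd.mul_right h T)
    have hSz : ¬ (p : ℤ) ∣ (S : ℤ) := by intro h1; exact hS' (by exact_mod_cast h1)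
    have e1 : ((S * T : ℕ) : ℤ) = (S : ℤ) * T := by push_cast; ring
    rw [e1, jac_congr (b := -1 * (S * S)), jacobiSym.mul_left, jacobiSym.mul_left (S : ℤ),
      jac_sq_cancel hpp hSz, mul_one]
    have h3 : (S : ℤ) * T - -1 * (S * S) = S * (k * n) := by
      have : (S : ℤ) + T = k * n := by exact_mod_cast hST
      rw [← this]; ring
    rw [h3]
    exact Dvd.dvd.mul_left (Dvd.dvd.mul_left (by exact_mod_cast hpn) _) _

/-- **the signs at `2`** -/
theorem H2_sym {n : ℕ} (hn : Cme n) {k S T : ℕ} (hST : S + T = k * n) (hS : 0 < S) (hT : 0 < T)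
    {b : ℤ} (h : locE n b (4 * (S * T)) ≠ 0) : H2 n S * H2 n T = c2 n (-1) := by
  have hE0 : S * T ≠ 0 := (Nat.mul_pos hS hT).ne'
  have h1 := HH_one hn.1 (S * T) hE0
  unfold HH at h1
  rw [Hr_neg hn hE0 h, Finset.prod_congr rfl fun p hp => Hp_neg hn hST hS hT h hp] at h1
  have h2 := chE_neg_one hn.1
  unfold chE at h2
  rw [← H2_mul n hS.ne' hT.ne']
  set J : ℤ := ∏ p ∈ n.primeFactors.erase 2, jacobiSym (-1) p
  have h3 : J * J = 1 := by
    have h4 : c2 n (-1) = 1 ∨ c2 n (-1) = -1 := c2_pm n (by norm_num)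
    rcases h4 with h4 | h4 <;> rw [h4] at h2
    · have : J = -1 := by linarith
      rw [this]; norm_num
    · have : J = 1 := by linarith
      rw [this]; norm_num
  linear_combination (-J) * h1 - (H2 n (S * T) - c2 n (-1)) * h3 - J * h2

end Pool.Agent.N973.P17G
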